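import Pool.Agent.MT100.Defs

/-! MT100, module PEE, linear algebra: a monoid containing the transvections along a spanning
polynomial curve has no invariant relation between the entries of the symmetric square. -/

set_option autoImplicit false

namespace Pool.Agent.MT100.H69

open Matrix Polynomial

/-- polynomial curves not contained in a hyperplane -/
def PCurve {r : ℕ} (v : ℝ → Fin r → ℝ) : Prop :=
  ∀ y : Fin r → ℝ, ∃ p : ℝ[X], (∀ a, y ⬝ᵥ v a = p.eval a) ∧ (y ≠ 0 → p ≠ 0)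

theorem PCurve.zero {r : ℕ} {v : ℝ → Fin r → ℝ} (hv : PCurve v) (y : Fin r → ℝ)
    (h : ∀ a, y ⬝ᵥ v a = 0) : y = 0 := by
  by_contra hy
  obtain ⟨p, hp, hp0⟩ := hv y
  apply hp0 hy
  apply Polynomial.funext
  intro a
  rw [← hp a, h a, eval_zero]

/-- if the product of two functionals vanishes on the curves, one of them vanishes -/
theorem PCurve.mul {r : ℕ} {v l : ℝ → Fin r → ℝ} (hv : PCurve v) (hl : PCurve l)
    (y x : Fin r → ℝ) (hx : x ≠ 0) (h : ∀ a, (x ⬝ᵥ l a) * (y ⬝ᵥ v a) = 0) : y = 0 := by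
  obtain ⟨p, hp, hp0⟩ := hl x
  obtain ⟨q, hq, hq0⟩ := hv y
  have hpq : p * q = 0 := by
    apply Polynomial.funext
    intro a
    rw [eval_mul, ← hp a, ← hq a, h a, eval_zero]
  by_contra hy
  rcases mul_eq_zero.mp hpq with h0 | h0
  · exact hp0 hx h0
  · exact hq0 hy h0

theorem lemQ {r : ℕ} (G : Set (Matrix (Fin r) (Fin r) ℝ)) (v l : ℝ → Fin r → ℝ)
    (hv : PCurve v) (hl : PCurve l) (h1 : (1 : Matrix (Fin r) (Fin r) ℝ) ∈ G)
    (hG : ∀ g ∈ G, ∀ a t : ℝ, (1 + t • vecMulVec (v a) (l a)) * g ∈ G)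
    (Q : Matrix (Fin r) (Fin r) ℝ) (hQs : Qᵀ = Q) (x0 : Fin r → ℝ) (hx0 : x0 ≠ 0)
    (h : ∀ g ∈ G, (g *ᵥ x0) ⬝ᵥ (Q *ᵥ (g *ᵥ x0)) = 0) : Q = 0 := by
  have hsym : ∀ x y : Fin r → ℝ, x ⬝ᵥ (Q *ᵥ y) = y ⬝ᵥ (Q *ᵥ x) := by
    intro x y
    rw [dotProduct_mulVec, ← mulVec_transpose, hQs, dotProduct_comm]
  have hact : ∀ (g : Matrix (Fin r) (Fin r) ℝ) (a t : ℝ),
      ((1 + t • vecMulVec (v a) (l a)) * g) *ᵥ x0 =
        g *ᵥ x0 + (t * ((g *ᵥ x0) ⬝ᵥ l a)) • v a := by
    intro g a t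
    rw [← mulVec_mulVec, add_mulVec, one_mulVec, smul_mulVec]
    congr 1
    ext i
    simp only [Pi.smul_apply, mulVec, vecMulVec_apply, dotProduct, smul_eq_mul]
    rw [Finset.mul_sum, Finset.mul_sum, Finset.sum_mul]
    refine Finset.sum_congr rfl fun j _ => ?_
    ring
  have key : ∀ g ∈ G, Q *ᵥ (g *ᵥ x0) = 0 := by
    intro g hg
    by_cases hx : g *ᵥ x0 = 0
    · rw [hx, mulVec_zero]
    refine PCurve.mul hv hl _ _ hx fun a => ?_
    have e0 := h g hg
    have e1 := h _ (hG g hg a 1)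
    have e2 := h _ (hG g hg a (-1))
    rw [hact] at e1 e2
    set x := g *ᵥ x0
    set c := x ⬝ᵥ l a
    simp only [add_dotProduct, dotProduct_add, mulVec_add, mulVec_smul, smul_dotProduct,
      dotProduct_smul, smul_eq_mul, e0] at e1 e2
    rw [hsym x (v a)] at e1 e2
    rw [dotProduct_comm (Q *ᵥ x) (v a)]
    linarith
  have h3 : ∀ y : Fin r → ℝ, Q *ᵥ y = 0 := by
    intro y
    refine PCurve.mul hv hl _ _ hx0 fun a => ?_
    have e0 := key 1 h1
    have e1 := key _ (hG 1 h1 a 1)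
    rw [hact] at e1
    rw [one_mulVec] at e0 e1
    rw [mulVec_add, e0, mulVec_smul, zero_add, one_mul] at e1
    have e2 := congrArg (fun z => y ⬝ᵥ z) e1
    simp only [dotProduct_smul, dotProduct_zero, smul_eq_mul] at e2
    rw [dotProduct_comm (Q *ᵥ y) (v a), ← hsym y (v a)]
    exact e2
  ext i j
  have := congrFun (h3 (Pi.single j 1)) i
  simpa using this

/-- the extension by zero of a function on the pairs `i ≤ j` -/
def ext0 {r : ℕ} (D : SI r → ℝ) (i j : Fin r) : ℝ := if h : i ≤ j then D ⟨(i, j), h⟩ else 0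

theorem sum_SI {r : ℕ} (D : SI r → ℝ) (F : Fin r → Fin r → ℝ) :
    ∑ β : SI r, D β * F β.1.1 β.1.2 = ∑ i, ∑ j, ext0 D i j * F i j := by
  classical
  rw [← Fintype.sum_prod_type' (f := fun i j => ext0 D i j * F i j)]
  rw [← Fintype.sum_subtype_add_sum_subtype (fun x : Fin r × Fin r => x.1 ≤ x.2)
    (fun x => ext0 D x.1 x.2 * F x.1 x.2)]
  have h2 : ∑ x : {x : Fin r × Fin r // ¬ x.1 ≤ x.2}, ext0 D x.1.1 x.1.2 * F x.1.1 x.1.2 = 0 := by
    refine Finset.sum_eq_zero fun x _ => ?_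
    rw [ext0, dif_neg x.2, zero_mul]
  rw [h2, add_zero]
  refine Finset.sum_congr rfl fun x _ => ?_
  rw [ext0, dif_pos x.2]

/-- Lemma Q for the quadratic form `∑ D_β x_{β₁} x_{β₂}` -/
theorem lemQ' {r : ℕ} (G : Set (Matrix (Fin r) (Fin r) ℝ)) (v l : ℝ → Fin r → ℝ)
    (hv : PCurve v) (hl : PCurve l) (h1 : (1 : Matrix (Fin r) (Fin r) ℝ) ∈ G)
    (hG : ∀ g ∈ G, ∀ a t : ℝ, (1 + t • vecMulVec (v a) (l a)) * g ∈ G)
    (D : SI r → ℝ) (x0 : Fin r → ℝ) (hx0 : x0 ≠ 0)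
    (h : ∀ g ∈ G, ∑ β : SI r, D β * ((g *ᵥ x0) β.1.1 * (g *ᵥ x0) β.1.2) = 0) : D = 0 := by
  have hQ := lemQ G v l hv hl h1 hG (Matrix.of fun i j => ext0 D i j + ext0 D j i)
    (by ext i j; simp [add_comm]) x0 hx0 (by
      intro g hg
      have h2 := h g hg
      rw [sum_SI D (fun i j => (g *ᵥ x0) i * (g *ᵥ x0) j)] at h2
      set x := g *ᵥ x0
      have h3 : x ⬝ᵥ ((Matrix.of fun i j => ext0 D i j + ext0 D j i) *ᵥ x) =
          ∑ i, ∑ j, ext0 D i j * (x i * x j) + ∑ i, ∑ j, ext0 D j i * (x i * x j) := by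
        rw [← Finset.sum_add_distrib]
        simp only [dotProduct, mulVec, Matrix.of_apply]
        refine Finset.sum_congr rfl fun i _ => ?_
        rw [Finset.mul_sum, ← Finset.sum_add_distrib]
        refine Finset.sum_congr rfl fun j _ => ?_
        ring
      rw [h3, h2, Finset.sum_comm, zero_add]
      rw [← h2]
      refine Finset.sum_congr rfl fun i _ => Finset.sum_congr rfl fun j _ => ?_
      ring)
  funext β
  obtain ⟨⟨i, j⟩, hij⟩ := β
  have h4 := congrFun (congrFun hQ i) j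
  simp only [Matrix.of_apply, Matrix.zero_apply] at h4
  rw [ext0, dif_pos hij] at h4
  by_cases hji : j ≤ i
  · have : i = j := le_antisymm hij hji
    subst this
    rw [ext0, dif_pos hij] at h4
    simp only [Pi.zero_apply]
    linarith
  · rw [ext0, dif_neg hji] at h4
    simp only [Pi.zero_apply]
    linarith

theorem sy_add_smul {r : ℕ} (P R : Matrix (Fin r) (Fin r) ℝ) (β α : SI r) :
    sy (P + R) β α + sy (P - R) β α - 2 * sy P β α = 2 * sy R β α := by
  simp only [sy, Matrix.add_apply, Matrix.sub_apply]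
  split_ifs <;> ring

theorem sy_vecMulVec {r : ℕ} (x y : Fin r → ℝ) (β α : SI r) :
    sy (vecMulVec x y) β α = (x β.1.1 * x β.1.2) *
      ((if α.1.1 < α.1.2 then 2 else 1) * (y α.1.1 * y α.1.2)) := by
  simp only [sy, vecMulVec_apply]
  split_ifs <;> ring

/-- a set stable under the transvections along spanning polynomial curves satisfies no relation
between the entries of the symmetric square -/
theorem la {r : ℕ} (v l : ℝ → Fin r → ℝ) (hv : PCurve v) (hl : PCurve l)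
    (hv0 : v 0 ≠ 0) (hl0 : l 0 ≠ 0) (S : Set (Matrix (Fin r) (Fin r) ℝ)) (h1 : 1 ∈ S)
    (hS : ∀ g ∈ S, ∀ a t : ℝ, (1 + t • vecMulVec (v a) (l a)) * g ∈ S)
    (C : SI r → SI r → ℝ) (hC : ∀ g ∈ S, ∑ β, ∑ α, C β α * sy g β α = 0) : C = 0 := by
  set M : Submonoid (Matrix (Fin r) (Fin r) ℝ) := Submonoid.closure
    (Set.range fun p : ℝ × ℝ => (1 + p.2 • vecMulVec (v p.1) (l p.1))) with hM
  have hgen : ∀ a t : ℝ, (1 + t • vecMulVec (v a) (l a)) ∈ M := fun a t =>
    Submonoid.subset_closure ⟨(a, t), rfl⟩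
  have hMS : ∀ g ∈ M, g ∈ S := by
    intro g hg
    induction hg using Submonoid.closure_induction_left with
    | one => exact h1
    | mul_left x hx y hy hyS =>
      obtain ⟨p, rfl⟩ := hx
      exact hS y hyS p.1 p.2
  have hkey : ∀ g ∈ M, ∀ g' ∈ M, ∑ β, ∑ α, C β α *
      ((g *ᵥ v 0) β.1.1 * (g *ᵥ v 0) β.1.2 *
        ((if α.1.1 < α.1.2 then 2 else 1) * ((g'ᵀ *ᵥ l 0) α.1.1 * (g'ᵀ *ᵥ l 0) α.1.2))) = 0 := by
    intro g hg g' hg'
    have hR : ∀ t : ℝ, g * (1 + t • vecMulVec (v 0) (l 0)) * g' =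
        g * g' + t • vecMulVec (g *ᵥ v 0) (g'ᵀ *ᵥ l 0) := by
      intro t
      rw [mul_add, add_mul, mul_one, Matrix.mul_smul, Matrix.smul_mul, mulVec_transpose,
        ← vecMulVec_mul, ← mul_vecMulVec]
    have e0 := hC _ (hMS _ (M.mul_mem hg hg'))
    have e1 := hC _ (hMS _ (M.mul_mem (M.mul_mem hg (hgen 0 1)) hg'))
    have e2 := hC _ (hMS _ (M.mul_mem (M.mul_mem hg (hgen 0 (-1))) hg'))
    rw [hR] at e1 e2
    rw [one_smul] at e1
    rw [neg_one_smul, ← sub_eq_add_neg] at e2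
    have e3 : ∑ β, ∑ α, C β α * (2 * sy (vecMulVec (g *ᵥ v 0) (g'ᵀ *ᵥ l 0)) β α) = 0 := by
      have : ∑ β, ∑ α, C β α * (2 * sy (vecMulVec (g *ᵥ v 0) (g'ᵀ *ᵥ l 0)) β α) =
          (∑ β, ∑ α, C β α * sy (g * g' + vecMulVec (g *ᵥ v 0) (g'ᵀ *ᵥ l 0)) β α) +
          (∑ β, ∑ α, C β α * sy (g * g' - vecMulVec (g *ᵥ v 0) (g'ᵀ *ᵥ l 0)) β α) -
          2 * (∑ β, ∑ α, C β α * sy (g * g') β α) := by
        rw [Finset.mul_sum, ← Finset.sum_add_distrib, ← Finset.sum_sub_distrib]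
        refine Finset.sum_congr rfl fun β _ => ?_
        rw [Finset.mul_sum, ← Finset.sum_add_distrib, ← Finset.sum_sub_distrib]
        refine Finset.sum_congr rfl fun α _ => ?_
        rw [← sy_add_smul]
        ring
      rw [this, e0, e1, e2]
      ring
    have e4 : ∑ β, ∑ α, C β α * (2 * sy (vecMulVec (g *ᵥ v 0) (g'ᵀ *ᵥ l 0)) β α) =
        2 * ∑ β, ∑ α, C β α *
      ((g *ᵥ v 0) β.1.1 * (g *ᵥ v 0) β.1.2 *
        ((if α.1.1 < α.1.2 then 2 else 1) * ((g'ᵀ *ᵥ l 0) α.1.1 * (g'ᵀ *ᵥ l 0) α.1.2))) := by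
      rw [Finset.mul_sum]
      refine Finset.sum_congr rfl fun β _ => ?_
      rw [Finset.mul_sum]
      refine Finset.sum_congr rfl fun α _ => ?_
      rw [sy_vecMulVec]
      ring
    rw [e4] at e3
    linarith
  -- first step
  have step1 : ∀ g' ∈ M, ∀ β, ∑ α, C β α * ((if α.1.1 < α.1.2 then 2 else 1) *
      ((g'ᵀ *ᵥ l 0) α.1.1 * (g'ᵀ *ᵥ l 0) α.1.2)) = 0 := by
    intro g' hg' β
    have := lemQ' (M : Set (Matrix (Fin r) (Fin r) ℝ)) v l hv hl M.one_mem
      (fun g hg a t => M.mul_mem (hgen a t) hg)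
      (fun β => ∑ α, C β α * ((if α.1.1 < α.1.2 then 2 else 1) *
        ((g'ᵀ *ᵥ l 0) α.1.1 * (g'ᵀ *ᵥ l 0) α.1.2))) (v 0) hv0 (by
        intro g hg
        refine Eq.trans ?_ (hkey g hg g' hg')
        refine Finset.sum_congr rfl fun β _ => ?_
        rw [Finset.sum_mul]
        refine Finset.sum_congr rfl fun α _ => ?_
        ring)
    exact congrFun this β
  funext β α
  have := lemQ' {g | gᵀ ∈ M} l v hl hv (by simp [M.one_mem]) (by
      intro g hg a t
      simp only [Set.mem_setOf_eq] at hg ⊢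
      rw [transpose_mul, transpose_add, transpose_one, transpose_smul, transpose_vecMulVec]
      exact M.mul_mem hg (hgen a t))
    (fun α => C β α * (if α.1.1 < α.1.2 then 2 else 1)) (l 0) hl0 (by
      intro g hg
      have h5 := step1 gᵀ hg β
      rw [transpose_transpose] at h5
      refine Eq.trans ?_ h5
      refine Finset.sum_congr rfl fun α _ => ?_
      ring)
  have h6 := congrFun this α
  simp only [Pi.zero_apply, mul_eq_zero] at h6
  rcases h6 with h6 | h6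
  · exact h6
  · split_ifs at h6 <;> norm_num at h6

/-! ### the curves `exp (± a N) x` -/

/-- `a ↦ y · exp (a N) x` as a polynomial -/
noncomputable def Tp {r : ℕ} (y x : Fin r → ℝ) : ℝ[X] :=
  ∑ i : Fin r, ∑ m : Fin r, if i ≤ m then
    C (y i * x m * ((((m : ℕ) - (i : ℕ)).factorial : ℝ)⁻¹)) * X ^ ((m : ℕ) - (i : ℕ)) else 0

theorem Tp_eval {r : ℕ} (y x : Fin r → ℝ) (a : ℝ) : (Tp y x).eval a = y ⬝ᵥ (en r a *ᵥ x) := by
  simp only [Tp, eval_finsetSum, dotProduct, mulVec, en, Finset.mul_sum]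
  refine Finset.sum_congr rfl fun i _ => Finset.sum_congr rfl fun m _ => ?_
  split_ifs with h
  · simp only [eval_mul, eval_C, eval_pow, eval_X, Rat.smul_def, Rat.cast_inv, Rat.cast_natCast]
    ring
  · simp

theorem Tp_ne {r : ℕ} (y x : Fin r → ℝ) (i0 m0 : Fin r) (him : i0 ≤ m0)
    (hy : ∀ i < i0, y i = 0) (hx : ∀ m, m0 < m → x m = 0) (hy0 : y i0 ≠ 0) (hx0 : x m0 ≠ 0) :
    Tp y x ≠ 0 := by
  intro h
  have h2 : (Tp y x).coeff ((m0 : ℕ) - (i0 : ℕ)) =
      y i0 * x m0 * ((((m0 : ℕ) - (i0 : ℕ)).factorial : ℝ)⁻¹) := by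
    simp only [Tp, finset_sum_coeff]
    rw [Finset.sum_eq_single i0, Finset.sum_eq_single m0]
    · rw [if_pos him, coeff_C_mul, coeff_X_pow, if_pos rfl, mul_one]
    · intro m _ hm
      split_ifs with h3
      · rw [coeff_C_mul, coeff_X_pow, if_neg, mul_zero]
        intro h4
        apply hm
        apply Fin.ext
        have h5 : (i0 : ℕ) ≤ m := h3
        have h6 : (i0 : ℕ) ≤ m0 := him
        omega
      · simp
    · simp
    · intro i _ hi
      refine Finset.sum_eq_zero fun m _ => ?_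
      split_ifs with h3
      · rw [coeff_C_mul, coeff_X_pow]
        split_ifs with h4
        · rcases lt_or_gt_of_ne hi with h5 | h5
          · rw [hy i h5]; simp
          · rw [hx m]
            · simp
            · have h5' : (i0 : ℕ) < i := h5
              have h6 : (i : ℕ) ≤ m := h3
              have h7 : (i0 : ℕ) ≤ m0 := him
              show (m0 : ℕ) < m
              omega
        · simp
      · simp
    · simp
  rw [h, coeff_zero] at h2
  have h3 : ((((m0 : ℕ) - (i0 : ℕ)).factorial : ℝ)⁻¹) ≠ 0 := by positivity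
  exact (mul_ne_zero (mul_ne_zero hy0 hx0) h3) h2.symm

theorem Tp_ne_left {r : ℕ} (y x : Fin r → ℝ) (fl : Fin r) (hfl : ∀ i, i ≤ fl) (hx : x fl ≠ 0)
    (hy : y ≠ 0) : Tp y x ≠ 0 := by
  classical
  obtain ⟨i, hi⟩ := Function.ne_iff.mp hy
  set s : Finset (Fin r) := Finset.univ.filter fun i => y i ≠ 0
  have hs : s.Nonempty := ⟨i, by simpa [s] using hi⟩
  refine Tp_ne y x (s.min' hs) fl (hfl _) ?_ ?_ ?_ hx
  · intro j hj
    by_contra h
    exact absurd (s.min'_le j (by simpa [s] using h)) (not_le.mpr hj)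
  · intro m hm
    exact absurd (hfl m) (not_le.mpr hm)
  · have := s.min'_mem hs
    simpa [s] using this

theorem Tp_ne_right {r : ℕ} (y x : Fin r → ℝ) (fz : Fin r) (hfz : ∀ i, fz ≤ i) (hy : y fz ≠ 0)
    (hx : x ≠ 0) : Tp y x ≠ 0 := by
  classical
  obtain ⟨i, hi⟩ := Function.ne_iff.mp hx
  set s : Finset (Fin r) := Finset.univ.filter fun i => x i ≠ 0
  have hs : s.Nonempty := ⟨i, by simpa [s] using hi⟩
  refine Tp_ne y x fz (s.max' hs) (hfz _) ?_ ?_ hy ?_
  · intro m hm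
    exact absurd (hfz m) (not_le.mpr hm)
  · intro j hj
    by_contra h
    exact absurd (s.le_max' j (by simpa [s] using h)) (not_le.mpr hj)
  · have := s.max'_mem hs
    simpa [s] using this

theorem pcurve_v {r : ℕ} (v : Fin r → ℝ) (fl : Fin r) (hfl : ∀ i, i ≤ fl) (hv : v fl ≠ 0) :
    PCurve fun a => en r (-a) *ᵥ v := by
  intro y
  refine ⟨(Tp y v).comp (-X), fun a => ?_, fun hy h => ?_⟩
  · rw [eval_comp, eval_neg, eval_X, Tp_eval]
  · apply Tp_ne_left y v fl hfl hv hy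
    have : (Tp y v) = ((Tp y v).comp (-X)).comp (-X) := by
      rw [comp_assoc]
      simp
    rw [this, h, zero_comp]

theorem pcurve_l {r : ℕ} (l : Fin r → ℝ) (fz : Fin r) (hfz : ∀ i, fz ≤ i) (hl : l fz ≠ 0) :
    PCurve fun a => l ᵥ* en r a := by
  intro x
  refine ⟨Tp l x, fun a => ?_, fun hx => Tp_ne_right l x fz hfz hl hx⟩
  rw [Tp_eval, dotProduct_comm, dotProduct_mulVec]

end Pool.Agent.MT100.H69
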