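import Pool.Agent.MT100.Stmts

/-! MT100, module PEE: functions polynomial in a variable `x` with coefficients germs of
meromorphic functions of `u > 0`. -/

set_option autoImplicit false

namespace Pool.Agent.MT100.H69

open Matrix Polynomial Filter Topology

theorem MerG.congr {f g : ℝ → ℝ} (hf : MerG f) (h : ∀ᶠ u in 𝓝[>] (0 : ℝ), f u = g u) :
    MerG g := by
  obtain ⟨k, F, hF, hk⟩ := hf
  refine ⟨k, F, hF, ?_⟩
  filter_upwards [hk, h] with u hu h2
  rw [← h2, hu]

theorem MerG.of_an {f : ℝ → ℝ} (hf : AnalyticAt ℝ f 0) : MerG f :=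
  ⟨0, f, hf, Eventually.of_forall fun u => by simp⟩

theorem MerG.const (c : ℝ) : MerG fun _ => c := MerG.of_an analyticAt_const

theorem MerG.add {f g : ℝ → ℝ} (hf : MerG f) (hg : MerG g) : MerG fun u => f u + g u := by
  obtain ⟨k, F, hF, hk⟩ := hf
  obtain ⟨l, G, hG, hl⟩ := hg
  refine ⟨k + l, fun u => u ^ l * F u + u ^ k * G u, ?_, ?_⟩
  · exact ((analyticAt_id.pow l).mul hF).add ((analyticAt_id.pow k).mul hG)
  · filter_upwards [hk, hl] with u h1 h2
    rw [← h1, ← h2]
    ring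

theorem MerG.mul {f g : ℝ → ℝ} (hf : MerG f) (hg : MerG g) : MerG fun u => f u * g u := by
  obtain ⟨k, F, hF, hk⟩ := hf
  obtain ⟨l, G, hG, hl⟩ := hg
  refine ⟨k + l, fun u => F u * G u, hF.mul hG, ?_⟩
  filter_upwards [hk, hl] with u h1 h2
  rw [← h1, ← h2]
  ring

theorem MerG.sum {σ : Type*} (s : Finset σ) (f : σ → ℝ → ℝ) (hf : ∀ i ∈ s, MerG (f i)) :
    MerG fun u => ∑ i ∈ s, f i u := by
  classical
  induction s using Finset.induction_on with
  | empty => simpa using MerG.const 0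
  | insert a s ha ih =>
    have := MerG.add (hf a (Finset.mem_insert_self a s))
      (ih fun i hi => hf i (Finset.mem_insert_of_mem hi))
    simpa only [Finset.sum_insert ha] using this

theorem MerG.inv : MerG fun u => u⁻¹ := by
  refine ⟨1, fun _ => 1, analyticAt_const, ?_⟩
  filter_upwards [self_mem_nhdsWithin] with u hu
  rw [pow_one, mul_inv_cancel₀ (ne_of_gt hu)]

/-- polynomial in the second variable, meromorphic in the first one near `0+` -/
def PL (F : ℝ → ℝ → ℝ) : Prop :=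
  ∃ (M : ℕ) (p : ℝ → ℝ[X]), (∀ u, (p u).natDegree ≤ M) ∧ (∀ m, MerG fun u => (p u).coeff m) ∧
    ∀ᶠ u in 𝓝[>] (0 : ℝ), ∀ x, F u x = (p u).eval x

theorem PL.congr {F G : ℝ → ℝ → ℝ} (hF : PL F) (h : ∀ᶠ u in 𝓝[>] (0 : ℝ), ∀ x, F u x = G u x) :
    PL G := by
  obtain ⟨M, p, h1, h2, h3⟩ := hF
  refine ⟨M, p, h1, h2, ?_⟩
  filter_upwards [h3, h] with u h4 h5 x
  rw [← h5, h4]

theorem PL.of_mer {f : ℝ → ℝ} (hf : MerG f) : PL fun u _ => f u := by
  refine ⟨0, fun u => C (f u), fun u => by simp, fun m => ?_, Eventually.of_forall fun u x => ?_⟩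
  · rcases Nat.eq_zero_or_pos m with h | h
    · subst h
      simpa using hf
    · simp only [coeff_C, if_neg (Nat.pos_iff_ne_zero.mp h)]
      exact MerG.const 0
  · simp

theorem PL.const (c : ℝ) : PL fun _ _ => c := PL.of_mer (MerG.const c)

theorem PL.var : PL fun _ x => x := by
  refine ⟨1, fun u => X, fun u => by simp, fun m => ?_, Eventually.of_forall fun u x => ?_⟩
  · simp only
    exact MerG.const _
  · simp

theorem PL.add {F G : ℝ → ℝ → ℝ} (hF : PL F) (hG : PL G) : PL fun u x => F u x + G u x := by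
  obtain ⟨M, p, h1, h2, h3⟩ := hF
  obtain ⟨N, q, h4, h5, h6⟩ := hG
  refine ⟨max M N, fun u => p u + q u, fun u => ?_, fun m => ?_, ?_⟩
  · exact (natDegree_add_le _ _).trans (max_le_max (h1 u) (h4 u))
  · simp only [coeff_add]
    exact MerG.add (h2 m) (h5 m)
  · filter_upwards [h3, h6] with u h7 h8 x
    rw [h7, h8, eval_add]

theorem PL.mul {F G : ℝ → ℝ → ℝ} (hF : PL F) (hG : PL G) : PL fun u x => F u x * G u x := by
  obtain ⟨M, p, h1, h2, h3⟩ := hF
  obtain ⟨N, q, h4, h5, h6⟩ := hG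
  refine ⟨M + N, fun u => p u * q u, fun u => ?_, fun m => ?_, ?_⟩
  · exact natDegree_mul_le.trans (add_le_add (h1 u) (h4 u))
  · simp only [coeff_mul]
    exact MerG.sum _ _ fun i _ => MerG.mul (h2 i.1) (h5 i.2)
  · filter_upwards [h3, h6] with u h7 h8 x
    rw [h7, h8, eval_mul]

theorem PL.sum {σ : Type*} (s : Finset σ) (f : σ → ℝ → ℝ → ℝ) (hf : ∀ i ∈ s, PL (f i)) :
    PL fun u x => ∑ i ∈ s, f i u x := by
  classical
  induction s using Finset.induction_on with
  | empty => simpa using PL.const 0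
  | insert a s ha ih =>
    have := (hf a (Finset.mem_insert_self a s)).add
      (ih fun i hi => hf i (Finset.mem_insert_of_mem hi))
    simpa only [Finset.sum_insert ha] using this

theorem PL.prod {σ : Type*} (s : Finset σ) (f : σ → ℝ → ℝ → ℝ) (hf : ∀ i ∈ s, PL (f i)) :
    PL fun u x => ∏ i ∈ s, f i u x := by
  classical
  induction s using Finset.induction_on with
  | empty => simpa using PL.const 1
  | insert a s ha ih =>
    have := (hf a (Finset.mem_insert_self a s)).mul
      (ih fun i hi => hf i (Finset.mem_insert_of_mem hi))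
    simpa only [Finset.prod_insert ha] using this

theorem PL.pow {F : ℝ → ℝ → ℝ} (hF : PL F) (n : ℕ) : PL fun u x => F u x ^ n := by
  induction n with
  | zero => simpa using PL.const 1
  | succ n ih => simpa only [pow_succ] using ih.mul hF

/-- a logarithmic relation holds identically in the logarithm -/
theorem PL.zero_of_log (hL : LtlStmt) {F : ℝ → ℝ → ℝ} (hF : PL F)
    (h : ∀ᶠ u in 𝓝[>] (0 : ℝ), F u (Real.log u) = 0) :
    ∀ᶠ u in 𝓝[>] (0 : ℝ), ∀ x, F u x = 0 := by
  obtain ⟨M, p, h1, h2, h3⟩ := hF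
  have h4 := hL (M + 1) (fun m u => (p u).coeff m) (fun m => h2 m) (by
    filter_upwards [h, h3] with u h5 h6
    rw [h6, eval_eq_sum_range' (Nat.lt_succ_of_le (h1 u))] at h5
    rw [← h5, Finset.sum_range])
  have h5 : ∀ᶠ u in 𝓝[>] (0 : ℝ), ∀ m : Fin (M + 1), (p u).coeff m = 0 :=
    eventually_all.mpr h4
  filter_upwards [h5, h3] with u h6 h7 x
  rw [h7, eval_eq_sum_range' (Nat.lt_succ_of_le (h1 u)), Finset.sum_range]
  exact Finset.sum_eq_zero fun m _ => by rw [h6 m, zero_mul]

theorem PL.evalEval {f : ℝ → ℝ} (hf : MerG f) {G : ℝ → ℝ → ℝ} (hG : PL G)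
    (c : Polynomial (Polynomial ℝ)) : PL fun u x => evalEval (f u) (G u x) c := by
  induction c using Polynomial.induction_on' with
  | add p q hp hq => simpa only [evalEval_add] using hp.add hq
  | monomial n a =>
    have e : (fun u x => Polynomial.evalEval (f u) (G u x) (monomial n a)) =
        fun u x => a.eval (f u) * G u x ^ n := by
      funext u x
      simp [Polynomial.evalEval, eval_monomial]
    rw [e]
    refine PL.mul ?_ (hG.pow n)
    clear hG e
    induction a using Polynomial.induction_on' with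
    | add p q hp hq => simpa only [eval_add] using hp.add hq
    | monomial n a =>
      simp only [eval_monomial]
      exact (PL.const a).mul ((PL.of_mer hf).pow n)

/-- entries of products of matrices -/
theorem PL.mmul {l m n : Type*} [Fintype m] {A : ℝ → ℝ → Matrix l m ℝ} {B : ℝ → ℝ → Matrix m n ℝ}
    (hA : ∀ i j, PL fun u x => A u x i j) (hB : ∀ i j, PL fun u x => B u x i j) (i : l) (j : n) :
    PL fun u x => (A u x * B u x) i j := by
  simp only [Matrix.mul_apply]
  exact PL.sum _ _ fun k _ => (hA i k).mul (hB k j)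

theorem PL.sy {r : ℕ} {A : ℝ → ℝ → Matrix (Fin r) (Fin r) ℝ}
    (hA : ∀ i j, PL fun u x => A u x i j) (β α : SI r) :
    PL fun u x => Pool.Agent.MT100.sy (A u x) β α := by
  simp only [Pool.Agent.MT100.sy]
  refine ((hA _ _).mul (hA _ _)).add ?_
  split_ifs
  · exact (hA _ _).mul (hA _ _)
  · exact PL.const 0

theorem PL.en {r : ℕ} {G : ℝ → ℝ → ℝ} (hG : PL G) (i j : Fin r) :
    PL fun u x => Pool.Agent.MT100.en r (G u x) i j := by
  simp only [Pool.Agent.MT100.en]
  split_ifs
  · simp only [Rat.smul_def]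
    exact (PL.const _).mul (hG.pow _)
  · exact PL.const 0

/-! ### analytic functions -/

theorem an_evalEval {f g : ℝ → ℝ} {w : ℝ} (hf : AnalyticAt ℝ f w) (hg : AnalyticAt ℝ g w)
    (c : Polynomial (Polynomial ℝ)) :
    AnalyticAt ℝ (fun x => Polynomial.evalEval (f x) (g x) c) w := by
  induction c using Polynomial.induction_on' with
  | add p q hp hq => simpa only [evalEval_add] using hp.fun_add hq
  | monomial n a =>
    have e : (fun x => Polynomial.evalEval (f x) (g x) (monomial n a)) =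
        fun x => a.eval (f x) * g x ^ n := by
      funext x
      simp [Polynomial.evalEval, eval_monomial]
    rw [e]
    refine AnalyticAt.mul ?_ (hg.pow n)
    clear hg e
    induction a using Polynomial.induction_on' with
    | add p q hp hq => simpa only [eval_add] using hp.fun_add hq
    | monomial n a =>
      simp only [eval_monomial]
      exact analyticAt_const.mul (hf.pow n)

theorem an_mmul {l m n : Type*} [Fintype m] {A : ℝ → Matrix l m ℝ} {B : ℝ → Matrix m n ℝ} {w : ℝ}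
    (hA : ∀ i j, AnalyticAt ℝ (fun x => A x i j) w) (hB : ∀ i j, AnalyticAt ℝ (fun x => B x i j) w)
    (i : l) (j : n) : AnalyticAt ℝ (fun x => (A x * B x) i j) w := by
  simp only [Matrix.mul_apply]
  exact Finset.analyticAt_fun_sum _ fun k _ => (hA i k).mul (hB k j)

theorem an_sy {r : ℕ} {A : ℝ → Matrix (Fin r) (Fin r) ℝ} {w : ℝ}
    (hA : ∀ i j, AnalyticAt ℝ (fun x => A x i j) w) (β α : SI r) :
    AnalyticAt ℝ (fun x => Pool.Agent.MT100.sy (A x) β α) w := by
  simp only [Pool.Agent.MT100.sy]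
  refine ((hA _ _).mul (hA _ _)).add ?_
  split_ifs
  · exact (hA _ _).mul (hA _ _)
  · exact analyticAt_const

/-- identity theorem on a half line -/
theorem ident {f : ℝ → ℝ} {w0 : ℝ} (hf : ∀ w, w0 < w → AnalyticAt ℝ f w) {w1 : ℝ} (h1 : w0 < w1)
    (h : ∀ᶠ w in 𝓝 w1, f w = 0) : ∀ w, w0 < w → f w = 0 := by
  have h2 : AnalyticOnNhd ℝ f (Set.Ioi w0) := fun w hw => hf w hw
  have h3 := h2.eqOn_zero_of_preconnected_of_eventuallyEq_zero isPreconnected_Ioi h1 h
  exact fun w hw => h3 hw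

theorem ident_top {f : ℝ → ℝ} {w0 : ℝ} (hf : ∀ w, w0 < w → AnalyticAt ℝ f w)
    (h : ∀ᶠ w in atTop, f w = 0) : ∀ w, w0 < w → f w = 0 := by
  obtain ⟨T, hT⟩ := eventually_atTop.mp h
  refine ident hf (w1 := max w0 T + 1) (by linarith [le_max_left w0 T]) ?_
  filter_upwards [Ioi_mem_nhds (show T < max w0 T + 1 by linarith [le_max_right w0 T])] with w hw
  exact hT w (le_of_lt hw)

theorem ident_bot {f : ℝ → ℝ} {w0 : ℝ} (hf : ∀ w, w0 < w → AnalyticAt ℝ f w)
    (h : ∀ᶠ u in 𝓝[>] (0 : ℝ), f (w0 + u) = 0) : ∀ w, w0 < w → f w = 0 := by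
  obtain ⟨ε, hε, h2⟩ := mem_nhdsGT_iff_exists_Ioo_subset.mp h
  have hε' : 0 < ε := hε
  refine ident hf (w1 := w0 + ε / 2) (by linarith) ?_
  filter_upwards [Ioo_mem_nhds (show w0 < w0 + ε / 2 by linarith)
    (show w0 + ε / 2 < w0 + ε by linarith)] with w hw
  have := h2 (show w - w0 ∈ Set.Ioo 0 ε from ⟨by linarith [hw.1], by linarith [hw.2]⟩)
  simpa using this

/-- from `u = 1/w` near `0+` to large `w` -/
theorem ev_top {P : ℝ → Prop} (h : ∀ᶠ u in 𝓝[>] (0 : ℝ), P u⁻¹) : ∀ᶠ w in atTop, P w := by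
  have := tendsto_inv_atTop_nhdsGT_zero.eventually h
  simpa using this

theorem ev_zero {P : ℝ → Prop} (h : ∀ᶠ w in atTop, P w) : ∀ᶠ u in 𝓝[>] (0 : ℝ), P u⁻¹ :=
  tendsto_inv_nhdsGT_zero.eventually h

end Pool.Agent.MT100.H69
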