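import Pool.Agent.Helper69_MT.LA
import Pool.Agent.Helper69_MT.PL

/-! MT100, module PEE: there is no polynomial relation, multilinear in the symmetric squares, between
the translates of the fundamental matrix, with coefficients polynomial in `w` and `log w`. -/

set_option autoImplicit false

namespace Pool.Agent.MT100.H69

open Matrix Polynomial Filter Topology

/-! ### the matrices `exp (x N)` -/

theorem en_zero (r : ℕ) : en r (0 : ℝ) = 1 := by
  ext i j
  simp only [en, Matrix.one_apply]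
  by_cases h : i = j
  · subst h
    simp
  · rw [if_neg h]
    split_ifs with h2
    · have h3 : ((j : ℕ) - (i : ℕ)) ≠ 0 := by
        have h4 : (i : ℕ) ≤ j := h2
        have h5 : (i : ℕ) ≠ j := fun h => ‹¬ i = j› (Fin.ext h)
        omega
      rw [zero_pow h3, smul_zero]
    · rfl

theorem en_add (r : ℕ) (x y : ℝ) : en r (x + y) = en r x * en r y := by
  ext i j
  rw [Matrix.mul_apply]
  have h0 : ∀ k : Fin r, en r x i k * en r y k j =
      (fun k : ℕ => if (i : ℕ) ≤ k ∧ k ≤ (j : ℕ) then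
        ((k - (i : ℕ)).factorial : ℝ)⁻¹ * x ^ (k - (i : ℕ)) *
          ((((j : ℕ) - k).factorial : ℝ)⁻¹ * y ^ ((j : ℕ) - k)) else 0) (k : ℕ) := by
    intro k
    simp only [en, Rat.smul_def, Rat.cast_inv, Rat.cast_natCast]
    by_cases h1 : i ≤ k
    · by_cases h2 : k ≤ j
      · rw [if_pos h1, if_pos h2, if_pos ⟨h1, h2⟩]
      · rw [if_neg h2, mul_zero, if_neg]
        exact fun h => h2 h.2
    · rw [if_neg h1, zero_mul, if_neg]
      exact fun h => h1 h.1
  rw [Finset.sum_congr rfl fun k _ => h0 k,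
    Fin.sum_univ_eq_sum_range (fun k : ℕ => if (i : ℕ) ≤ k ∧ k ≤ (j : ℕ) then
        ((k - (i : ℕ)).factorial : ℝ)⁻¹ * x ^ (k - (i : ℕ)) *
          ((((j : ℕ) - k).factorial : ℝ)⁻¹ * y ^ ((j : ℕ) - k)) else 0) r, ← Finset.sum_filter]
  have h1 : (Finset.range r).filter (fun k : ℕ => (i : ℕ) ≤ k ∧ k ≤ (j : ℕ)) =
      Finset.Ico (i : ℕ) ((j : ℕ) + 1) := by
    ext k
    simp only [Finset.mem_filter, Finset.mem_range, Finset.mem_Ico]
    have := j.2
    omega
  rw [h1, Finset.sum_Ico_eq_sum_range]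
  simp only [en, Rat.smul_def, Rat.cast_inv, Rat.cast_natCast]
  by_cases h : i ≤ j
  · rw [if_pos h, add_pow, Finset.mul_sum]
    have h' : (i : ℕ) ≤ j := h
    have h2 : (j : ℕ) + 1 - i = (j : ℕ) - i + 1 := by omega
    rw [h2]
    refine Finset.sum_congr rfl fun k hk => ?_
    have hk' : k ≤ (j : ℕ) - i := Nat.lt_succ_iff.mp (Finset.mem_range.mp hk)
    rw [Nat.add_sub_cancel_left, ← Nat.sub_sub, Nat.cast_choose ℝ hk']
    have f1 : (((j : ℕ) - i).factorial : ℝ) ≠ 0 := by positivity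
    have f2 : (k.factorial : ℝ) ≠ 0 := by positivity
    have f3 : (((j : ℕ) - i - k).factorial : ℝ) ≠ 0 := by positivity
    field_simp
  · rw [if_neg h]
    have h' : ¬ (i : ℕ) ≤ j := h
    have h2 : (j : ℕ) + 1 - i = 0 := by omega
    rw [h2, Finset.range_zero, Finset.sum_empty]

/-! ### vanishing of coefficients -/

theorem coef_zero (hL : LtlStmt) (p : Polynomial (Polynomial ℝ))
    (h : ∀ᶠ w in atTop, evalEval w (Real.log w) p = 0) : p = 0 := by
  have h1 : PL fun u x => evalEval (u⁻¹) (-1 * x) p :=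
    PL.evalEval MerG.inv ((PL.const (-1)).mul PL.var) p
  have h2 := PL.zero_of_log hL h1 (by
    filter_upwards [ev_zero h] with u hu
    rw [Real.log_inv] at hu
    rw [neg_one_mul, hu])
  have h3 : ∀ᶠ w in atTop, ∀ x : ℝ, evalEval w (-1 * x) p = 0 :=
    ev_top (P := fun w => ∀ x : ℝ, evalEval w (-1 * x) p = 0) h2
  have h4 : ∀ᶠ w : ℝ in atTop, p.map (evalRingHom w) = 0 := by
    filter_upwards [h3] with w hw
    apply Polynomial.funext
    intro y
    rw [map_evalRingHom_eval, eval_zero]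
    have := hw (-y)
    rwa [neg_one_mul, neg_neg] at this
  obtain ⟨T, hT⟩ := eventually_atTop.mp h4
  ext1 m
  rw [coeff_zero]
  apply Polynomial.eq_zero_of_infinite_isRoot
  refine (Set.Ici_infinite T).mono fun w hw => ?_
  have := congrArg (fun q => coeff q m) (hT w hw)
  simp only [coeff_map, coe_evalRingHom, coeff_zero] at this
  exact this

/-! ### the relation -/

/-- the relation, with `log w` replaced by `log w - a`, the factor `j` multiplied by `Y` and the
other ones by `exp (a N)` -/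
noncomputable def TT (D : Dat) {ι : Type} [Fintype ι] [DecidableEq ι] (κ : ι → ℕ)
    (c : (ι → SI D.r) → (ι → SI D.r) → Polynomial (Polynomial ℝ)) (j : ι) (a : ℝ)
    (Y : Matrix (Fin D.r) (Fin D.r) ℝ) (w : ℝ) : ℝ :=
  ∑ β : ι → SI D.r, ∑ α : ι → SI D.r, evalEval w (Real.log w - a) (c β α) *
    ∏ i, sy (W D (w - κ i) * (if i = j then Y else en D.r a)) (β i) (α i)

section

variable (D : Dat) {ι : Type} [Fintype ι] [DecidableEq ι] (κ : ι → ℕ)
  (c : (ι → SI D.r) → (ι → SI D.r) → Polynomial (Polynomial ℝ)) (j : ι)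

theorem W_an (hA : AnaStmt) (k : ℕ) (w : ℝ) (hw : (D.lam : ℝ) + k < w) (a b : Fin D.r) :
    AnalyticAt ℝ (fun x => W D (x - k) a b) w := by
  have h1 := (hA D (w - k) (by linarith)).1 a b
  have h2 : AnalyticAt ℝ (fun x : ℝ => x - (k : ℝ)) w := analyticAt_id.sub analyticAt_const
  exact h1.comp_of_eq h2 rfl

theorem TT_an (hA : AnaStmt) (hκ : ∀ i, i ≠ j → κ i < κ j) (a : ℝ)
    (Y : Matrix (Fin D.r) (Fin D.r) ℝ) (w : ℝ) (hw : (D.lam : ℝ) + κ j < w) :
    AnalyticAt ℝ (TT D κ c j a Y) w := by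
  have hlam : (0 : ℝ) < D.lam := by exact_mod_cast D.lam_pos
  have hw0 : 0 < w := by
    have : (0 : ℝ) ≤ κ j := Nat.cast_nonneg _
    linarith
  have hki : ∀ i, (D.lam : ℝ) + κ i < w := by
    intro i
    by_cases h : i = j
    · rw [h]; exact hw
    · have : (κ i : ℝ) < κ j := by exact_mod_cast hκ i h
      linarith
  unfold TT
  refine Finset.analyticAt_fun_sum _ fun β _ => Finset.analyticAt_fun_sum _ fun α _ => ?_
  refine (an_evalEval analyticAt_id ((analyticAt_log hw0).sub analyticAt_const) _).mul ?_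
  refine Finset.analyticAt_fun_prod _ fun i _ => ?_
  refine an_sy (fun b d => an_mmul (A := fun x => W D (x - κ i))
    (B := fun _ => if i = j then Y else en D.r a) (fun b d => W_an D hA (κ i) w (hki i) b d)
    (fun b d => analyticAt_const) b d) _ _

/-- the matrices near infinity -/
noncomputable def TrM (i : ι) (u : ℝ) : Matrix (Fin D.r) (Fin D.r) ℝ :=
  (Tr D (κ i)).map (fun f => ev f u)

theorem TrM_mer (hT : TraStmt) (hE : EvaStmt) (i : ι) (a b : Fin D.r) :
    MerG fun u => TrM D κ i u a b := by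
  obtain ⟨K, N, q, B, hS⟩ := hT D (κ i)
  obtain ⟨δ, hδ, h1⟩ := hE.1 _ (hS.gH a b)
  have h2 := hE.2.2.2 (Tr D (κ i) a b) (δ / 2) (by positivity)
    (h1 (δ / 2) (by rw [abs_of_pos (by positivity)]; linarith)) 0
    (by rw [abs_zero]; positivity)
  exact MerG.of_an h2

/-- the relation as a function of `u = 1/w` and of the logarithm -/
noncomputable def FF (Y : Matrix (Fin D.r) (Fin D.r) ℝ) (u x : ℝ) : ℝ :=
  ∑ β : ι → SI D.r, ∑ α : ι → SI D.r, evalEval u⁻¹ (-1 * x) (c β α) *
    ∏ i, sy (TrM D κ i u * en D.r x * (if i = j then Y else 1)) (β i) (α i)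

theorem FF_PL (hT : TraStmt) (hE : EvaStmt) (Y : Matrix (Fin D.r) (Fin D.r) ℝ)
    {G : ℝ → ℝ → ℝ} (hG : PL G) : PL fun u x => FF D κ c j Y u (G u x) := by
  unfold FF
  refine PL.sum _ _ fun β _ => PL.sum _ _ fun α _ => PL.mul ?_ ?_
  · exact PL.evalEval MerG.inv ((PL.const (-1)).mul hG) _
  · refine PL.prod _ _ fun i _ => PL.sy (fun a b => ?_) _ _
    refine PL.mmul (fun a b => PL.mmul (fun a b => ?_) (fun a b => PL.en hG a b) a b)
      (fun a b => ?_) a b
    · exact PL.of_mer (TrM_mer D κ hT hE i a b)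
    · exact PL.const _

theorem TT_FF (hV : ValStmt) (Y : Matrix (Fin D.r) (Fin D.r) ℝ) (a : ℝ) :
    ∀ᶠ u in 𝓝[>] (0 : ℝ), TT D κ c j a (en D.r a * Y) u⁻¹ = FF D κ c j Y u (Real.log u + a) := by
  have h1 : ∀ᶠ w : ℝ in atTop, ∀ i, W D (w - κ i) =
      (Tr D (κ i)).map (fun f => ev f w⁻¹) * en D.r (-Real.log w) :=
    eventually_all.mpr fun i => hV D (κ i)
  filter_upwards [ev_zero h1] with u hu
  unfold TT FF
  refine Finset.sum_congr rfl fun β _ => Finset.sum_congr rfl fun α _ => ?_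
  have e1 : Real.log u⁻¹ - a = -1 * (Real.log u + a) := by rw [Real.log_inv]; ring
  rw [e1]
  congr 1
  refine Finset.prod_congr rfl fun i _ => ?_
  rw [hu i, inv_inv, Real.log_inv, neg_neg]
  have e2 : (Tr D (κ i)).map (fun f => ev f u) * en D.r (Real.log u) *
      (if i = j then en D.r a * Y else en D.r a) =
      TrM D κ i u * en D.r (Real.log u + a) * (if i = j then Y else 1) := by
    rw [en_add]
    unfold TrM
    split_ifs
    · simp only [Matrix.mul_assoc]
    · simp only [Matrix.mul_assoc, Matrix.mul_one]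
  rw [e2]

theorem shift (hL : LtlStmt) (hV : ValStmt) (hT : TraStmt) (hE : EvaStmt)
    (Y : Matrix (Fin D.r) (Fin D.r) ℝ) (a : ℝ)
    (h : ∀ᶠ w in atTop, TT D κ c j a (en D.r a * Y) w = 0) (b : ℝ) :
    ∀ᶠ w in atTop, TT D κ c j b (en D.r b * Y) w = 0 := by
  have h1 := PL.zero_of_log hL
    (FF_PL D κ c j hT hE Y (G := fun _ x => x + a) (PL.var.add (PL.const a))) (by
      filter_upwards [TT_FF D κ c j hV Y a, ev_zero h] with u h2 h3
      rw [← h2, h3])
  refine ev_top (P := fun w => TT D κ c j b (en D.r b * Y) w = 0) ?_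
  filter_upwards [h1, TT_FF D κ c j hV Y b] with u h2 h3
  rw [h3]
  have := h2 (Real.log u + b - a)
  rwa [show Real.log u + b - a + a = Real.log u + b by ring] at this

/-- the relation near the conifold point -/
noncomputable def GG (A : ℝ → Matrix (Fin D.r) (Fin D.r) ℝ) (v l : Fin D.r → ℝ) (a : ℝ)
    (Y : Matrix (Fin D.r) (Fin D.r) ℝ) (u x : ℝ) : ℝ :=
  ∑ β : ι → SI D.r, ∑ α : ι → SI D.r,
    evalEval (D.lam + κ j + u) (Real.log (D.lam + κ j + u) - a) (c β α) *
    ∏ i, sy (if i = j then (A u + x • vecMulVec (W D (D.lam + u) *ᵥ v) l) * Y else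
      W D (D.lam + κ j + u - κ i) * en D.r a) (β i) (α i)

theorem GG_PL (hA : AnaStmt) (hκ : ∀ i, i ≠ j → κ i < κ j)
    (A : ℝ → Matrix (Fin D.r) (Fin D.r) ℝ) (v l : Fin D.r → ℝ)
    (h1 : ∀ a i, MerG fun u => A u a i) (h2 : ∀ a, MerG fun u => (W D (D.lam + u) *ᵥ v) a)
    (a : ℝ) (Y : Matrix (Fin D.r) (Fin D.r) ℝ) {G : ℝ → ℝ → ℝ} (hG : PL G) :
    PL fun u x => GG D κ c j A v l a Y u (G u x) := by
  have hlam : (0 : ℝ) < D.lam := by exact_mod_cast D.lam_pos
  have hadd : AnalyticAt ℝ (fun u : ℝ => (D.lam : ℝ) + κ j + u) 0 :=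
    analyticAt_const.add analyticAt_id
  have hpos : (0 : ℝ) < (D.lam : ℝ) + κ j + 0 := by
    have : (0 : ℝ) ≤ κ j := Nat.cast_nonneg _
    linarith
  unfold GG
  refine PL.sum _ _ fun β _ => PL.sum _ _ fun α _ => PL.mul ?_ ?_
  · refine PL.of_mer (MerG.of_an ?_)
    exact an_evalEval hadd ((hadd.log hpos).sub analyticAt_const) _
  · refine PL.prod _ _ fun i _ => PL.sy (fun b d => ?_) _ _
    by_cases hij : i = j
    · simp only [if_pos hij]
      refine PL.mmul (B := fun _ _ => Y) (fun b d => ?_) (fun b d => PL.const _) b d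
      simp only [Matrix.add_apply, Matrix.smul_apply, vecMulVec_apply, smul_eq_mul]
      exact (PL.of_mer (h1 b d)).add (hG.mul ((PL.of_mer (h2 b)).mul (PL.const _)))
    · simp only [if_neg hij]
      refine PL.mmul (A := fun u _ => W D (D.lam + κ j + u - κ i)) (B := fun _ _ => en D.r a)
        (fun b d => ?_) (fun b d => PL.const _) b d
      refine PL.of_mer (MerG.of_an ?_)
      have h3 : (κ i : ℝ) < κ j := by exact_mod_cast hκ i hij
      exact (W_an D hA (κ i) ((D.lam : ℝ) + κ j + 0) (by linarith) b d).comp_of_eq hadd rfl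

theorem TT_GG (A : ℝ → Matrix (Fin D.r) (Fin D.r) ℝ) (v l : Fin D.r → ℝ)
    (h3 : ∀ᶠ u in 𝓝[>] (0 : ℝ),
      W D (D.lam + u) = A u + Real.log u • vecMulVec (W D (D.lam + u) *ᵥ v) l)
    (a : ℝ) (Y : Matrix (Fin D.r) (Fin D.r) ℝ) (t : ℝ) :
    ∀ᶠ u in 𝓝[>] (0 : ℝ), TT D κ c j a ((1 + t • vecMulVec v l) * Y) (D.lam + κ j + u) =
      GG D κ c j A v l a Y u (Real.log u + t) := by
  filter_upwards [h3] with u hu
  unfold TT GG
  refine Finset.sum_congr rfl fun β _ => Finset.sum_congr rfl fun α _ => ?_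
  congr 1
  refine Finset.prod_congr rfl fun i _ => ?_
  by_cases hij : i = j
  · rw [if_pos hij, if_pos hij]
    have e : W D (D.lam + κ j + u - κ i) * ((1 + t • vecMulVec v l) * Y) =
        (A u + (Real.log u + t) • vecMulVec (W D (D.lam + u) *ᵥ v) l) * Y := by
      rw [hij, show (D.lam : ℝ) + κ j + u - κ j = D.lam + u by ring, ← Matrix.mul_assoc,
        Matrix.mul_add, Matrix.mul_one, Matrix.mul_smul, mul_vecMulVec, add_smul, ← add_assoc, ← hu]
    rw [e]
  · rw [if_neg hij, if_neg hij]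

theorem coni (hL : LtlStmt) (hA : AnaStmt) (hκ : ∀ i, i ≠ j → κ i < κ j)
    (A : ℝ → Matrix (Fin D.r) (Fin D.r) ℝ) (v l : Fin D.r → ℝ)
    (h1 : ∀ a i, MerG fun u => A u a i) (h2 : ∀ a, MerG fun u => (W D (D.lam + u) *ᵥ v) a)
    (h3 : ∀ᶠ u in 𝓝[>] (0 : ℝ),
      W D (D.lam + u) = A u + Real.log u • vecMulVec (W D (D.lam + u) *ᵥ v) l)
    (a : ℝ) (Y : Matrix (Fin D.r) (Fin D.r) ℝ)
    (h : ∀ w, (D.lam : ℝ) + κ j < w → TT D κ c j a Y w = 0) (t : ℝ) :
    ∀ w, (D.lam : ℝ) + κ j < w → TT D κ c j a ((1 + t • vecMulVec v l) * Y) w = 0 := by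
  refine ident_bot (fun w hw => TT_an D κ c j hA hκ a _ w hw) ?_
  have h4 := PL.zero_of_log hL (GG_PL D κ c j hA hκ A v l h1 h2 a Y PL.var) (by
    filter_upwards [TT_GG D κ c j A v l h3 a Y 0, self_mem_nhdsWithin] with u h5 h6
    have h6' : 0 < u := h6
    rw [add_zero] at h5
    rw [← h5, zero_smul, add_zero, Matrix.one_mul]
    exact h _ (by linarith))
  filter_upwards [h4, TT_GG D κ c j A v l h3 a Y t] with u h5 h6
  rw [h6, h5]

/-- the set of the right multipliers preserving the relation is stable -/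
theorem stable (hL : LtlStmt) (hA : AnaStmt) (hV : ValStmt) (hT : TraStmt) (hE : EvaStmt)
    (hκ : ∀ i, i ≠ j → κ i < κ j)
    (A : ℝ → Matrix (Fin D.r) (Fin D.r) ℝ) (v l : Fin D.r → ℝ)
    (h1 : ∀ a i, MerG fun u => A u a i) (h2 : ∀ a, MerG fun u => (W D (D.lam + u) *ᵥ v) a)
    (h3 : ∀ᶠ u in 𝓝[>] (0 : ℝ),
      W D (D.lam + u) = A u + Real.log u • vecMulVec (W D (D.lam + u) *ᵥ v) l)
    (Y : Matrix (Fin D.r) (Fin D.r) ℝ)
    (h : ∀ w, (D.lam : ℝ) + κ j < w → TT D κ c j 0 Y w = 0) (a t : ℝ) :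
    ∀ w, (D.lam : ℝ) + κ j < w →
      TT D κ c j 0 ((1 + t • vecMulVec (en D.r (-a) *ᵥ v) (l ᵥ* en D.r a)) * Y) w = 0 := by
  have e0 : ∀ Z : Matrix (Fin D.r) (Fin D.r) ℝ, en D.r 0 * Z = Z := fun Z => by
    rw [en_zero, Matrix.one_mul]
  have e1 : ∀ᶠ w in atTop, TT D κ c j 0 (en D.r 0 * Y) w = 0 := by
    rw [e0]
    filter_upwards [eventually_gt_atTop ((D.lam : ℝ) + κ j)] with w hw
    exact h w hw
  have e2 := ident_top (fun w hw => TT_an D κ c j hA hκ a _ w hw)
    (shift D κ c j hL hV hT hE Y 0 e1 a)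
  have e3 := coni D κ c j hL hA hκ A v l h1 h2 h3 a _ e2 t
  have e4 : ((1 + t • vecMulVec v l) * (en D.r a * Y)) =
      en D.r a * ((1 + t • vecMulVec (en D.r (-a) *ᵥ v) (l ᵥ* en D.r a)) * Y) := by
    have e5 : en D.r a * vecMulVec (en D.r (-a) *ᵥ v) (l ᵥ* en D.r a) =
        vecMulVec v l * en D.r a := by
      rw [mul_vecMulVec, mulVec_mulVec, ← en_add, add_neg_cancel, en_zero, one_mulVec,
        vecMulVec_mul]
    rw [← Matrix.mul_assoc, ← Matrix.mul_assoc, Matrix.mul_add, Matrix.add_mul, Matrix.mul_one,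
      Matrix.one_mul, Matrix.mul_smul, Matrix.smul_mul, e5]
  rw [e4] at e3
  have e6 : ∀ᶠ w in atTop, TT D κ c j a
      (en D.r a * ((1 + t • vecMulVec (en D.r (-a) *ᵥ v) (l ᵥ* en D.r a)) * Y)) w = 0 := by
    filter_upwards [eventually_gt_atTop ((D.lam : ℝ) + κ j)] with w hw
    exact e3 w hw
  have e7 := ident_top (fun w hw => TT_an D κ c j hA hκ 0 _ w hw)
    (shift D κ c j hL hV hT hE _ a e6 0)
  rwa [e0] at e7

end

/-- splitting off one factor -/
theorem split (D : Dat) {ι : Type} [Fintype ι] [DecidableEq ι] (κ : ι → ℕ)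
    (c : (ι → SI D.r) → (ι → SI D.r) → Polynomial (Polynomial ℝ)) (j : ι)
    (Y : Matrix (Fin D.r) (Fin D.r) ℝ) (w : ℝ) :
    TT D κ c j 0 Y w = ∑ β0 : SI D.r, ∑ α0 : SI D.r,
      (∑ β' : {i // i ≠ j} → SI D.r, ∑ α' : {i // i ≠ j} → SI D.r,
        evalEval w (Real.log w) (c ((Equiv.funSplitAt j (SI D.r)).symm (β0, β'))
          ((Equiv.funSplitAt j (SI D.r)).symm (α0, α'))) *
          ∏ i : {i // i ≠ j}, sy (W D (w - κ i)) (β' i) (α' i)) *
        sy (W D (w - κ j) * Y) β0 α0 := by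
  unfold TT
  rw [← (Equiv.funSplitAt j (SI D.r)).symm.sum_comp, Fintype.sum_prod_type]
  refine Finset.sum_congr rfl fun β0 _ => ?_
  have e1 : ∀ β' : {i // i ≠ j} → SI D.r, (∑ α : ι → SI D.r,
      evalEval w (Real.log w - 0) (c ((Equiv.funSplitAt j (SI D.r)).symm (β0, β')) α) *
        ∏ i, sy (W D (w - κ i) * (if i = j then Y else en D.r 0))
          ((Equiv.funSplitAt j (SI D.r)).symm (β0, β') i) (α i)) =
      ∑ α0 : SI D.r, ∑ α' : {i // i ≠ j} → SI D.r,
        evalEval w (Real.log w) (c ((Equiv.funSplitAt j (SI D.r)).symm (β0, β'))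
          ((Equiv.funSplitAt j (SI D.r)).symm (α0, α'))) *
          (∏ i : {i // i ≠ j}, sy (W D (w - κ i)) (β' i) (α' i)) *
        sy (W D (w - κ j) * Y) β0 α0 := by
    intro β'
    rw [← (Equiv.funSplitAt j (SI D.r)).symm.sum_comp, Fintype.sum_prod_type]
    refine Finset.sum_congr rfl fun α0 _ => Finset.sum_congr rfl fun α' _ => ?_
    rw [sub_zero, Fintype.prod_eq_mul_prod_subtype_ne _ j, if_pos rfl]
    have e2 : ∀ (γ : SI D.r) (γ' : {i // i ≠ j} → SI D.r),
        (Equiv.funSplitAt j (SI D.r)).symm (γ, γ') j = γ := by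
      intro γ γ'
      simp [Equiv.funSplitAt, Equiv.piSplitAt]
    have e3 : ∀ (γ : SI D.r) (γ' : {i // i ≠ j} → SI D.r) (i : {i // i ≠ j}),
        (Equiv.funSplitAt j (SI D.r)).symm (γ, γ') i = γ' i := by
      intro γ γ' i
      simp [Equiv.funSplitAt, Equiv.piSplitAt, i.2]
    have e4 : (∏ i : {i // i ≠ j}, sy (W D (w - κ i) * (if (i : ι) = j then Y else en D.r 0))
        ((Equiv.funSplitAt j (SI D.r)).symm (β0, β') i)
        ((Equiv.funSplitAt j (SI D.r)).symm (α0, α') i)) =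
        ∏ i : {i // i ≠ j}, sy (W D (w - κ i)) (β' i) (α' i) := by
      refine Finset.prod_congr rfl fun i _ => ?_
      rw [if_neg i.2, en_zero, Matrix.mul_one, e3, e3]
    rw [e4, e2, e2]
    ring
  rw [Finset.sum_congr rfl fun β' _ => e1 β', Finset.sum_comm]
  refine Finset.sum_congr rfl fun α0 _ => ?_
  rw [Finset.sum_mul]
  refine Finset.sum_congr rfl fun β' _ => ?_
  rw [Finset.sum_mul]

theorem pee_aux (hY : SymStmt) (hL : LtlStmt) (hC : ConStmt) (hCy : CycStmt) (hA : AnaStmt)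
    (hV : ValStmt) (hT : TraStmt) (hE : EvaStmt) (D : Dat) :
    ∀ (n : ℕ) (ι : Type) [Fintype ι] [DecidableEq ι], Fintype.card ι = n → ∀ (κ : ι → ℕ),
    Function.Injective κ →
    ∀ c : (ι → SI D.r) → (ι → SI D.r) → Polynomial (Polynomial ℝ),
      (∀ᶠ w : ℝ in atTop, ∑ β, ∑ α, evalEval w (Real.log w) (c β α) *
        ∏ i, sy (W D (w - κ i)) (β i) (α i) = 0) → c = 0 := by
  intro n
  induction n with
  | zero =>
    intro ι _ _ hι κ hκ c h
    haveI : IsEmpty ι := Fintype.card_eq_zero_iff.mp hι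
    funext β α
    refine coef_zero hL _ ?_
    filter_upwards [h] with w hw
    rw [Fintype.sum_unique, Fintype.sum_unique] at hw
    simp only [Finset.univ_eq_empty, Finset.prod_empty, mul_one] at hw
    rw [Subsingleton.elim β default, Subsingleton.elim α default]
    exact hw
  | succ n ih =>
    intro ι _ _ hι κ hinj c h
    haveI : Nonempty ι := Fintype.card_pos_iff.mp (by omega)
    obtain ⟨j, hj⟩ := Finite.exists_max κ
    have hκ : ∀ i, i ≠ j → κ i < κ j := fun i hi =>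
      lt_of_le_of_ne (hj i) fun h => hi (hinj h)
    obtain ⟨v, l, A, h1, h2, h3⟩ := hC D
    obtain ⟨hv, hl, -⟩ := hCy D v l A h1 h2 h3
    have hT1 : ∀ w, TT D κ c j 0 1 w = ∑ β, ∑ α, evalEval w (Real.log w) (c β α) *
        ∏ i, sy (W D (w - κ i)) (β i) (α i) := by
      intro w
      unfold TT
      simp only [en_zero, ite_self, Matrix.mul_one, sub_zero]
    have hS1 : ∀ w, (D.lam : ℝ) + κ j < w → TT D κ c j 0 1 w = 0 := by
      refine ident_top (fun w hw => TT_an D κ c j hA hκ 0 _ w hw) ?_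
      filter_upwards [h] with w hw
      rw [hT1, hw]
    have hfl : ∀ i, i ≤ D.fl := by
      intro i
      have := i.2
      show (i : ℕ) ≤ D.r - 1
      omega
    have hfz : ∀ i, D.fz ≤ i := fun i => Nat.zero_le _
    -- the coefficients of the factor `j` vanish
    have hcoef : ∀ w, (D.lam : ℝ) + κ j < w → ∀ β0 α0 : SI D.r,
        ∑ β' : {i // i ≠ j} → SI D.r, ∑ α' : {i // i ≠ j} → SI D.r,
          evalEval w (Real.log w) (c ((Equiv.funSplitAt j (SI D.r)).symm (β0, β'))
            ((Equiv.funSplitAt j (SI D.r)).symm (α0, α'))) *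
            ∏ i : {i // i ≠ j}, sy (W D (w - κ i)) (β' i) (α' i) = 0 := by
      intro w hw
      set E : Matrix (SI D.r) (SI D.r) ℝ := Matrix.of fun α0 β0 =>
        ∑ β' : {i // i ≠ j} → SI D.r, ∑ α' : {i // i ≠ j} → SI D.r,
          evalEval w (Real.log w) (c ((Equiv.funSplitAt j (SI D.r)).symm (β0, β'))
            ((Equiv.funSplitAt j (SI D.r)).symm (α0, α'))) *
            ∏ i : {i // i ≠ j}, sy (W D (w - κ i)) (β' i) (α' i) with hE0
      have h5 := la (fun a => en D.r (-a) *ᵥ v) (fun a => l ᵥ* en D.r a)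
        (pcurve_v v D.fl hfl hv) (pcurve_l l D.fz hfz hl)
        (by
          simp only [neg_zero, en_zero, one_mulVec]
          exact fun h => hv (by rw [h]; rfl))
        (by
          simp only [en_zero, vecMul_one]
          exact fun h => hl (by rw [h]; rfl))
        {Y | ∀ w, (D.lam : ℝ) + κ j < w → TT D κ c j 0 Y w = 0} hS1
        (fun Y hY a t => stable D κ c j hL hA hV hT hE hκ A v l h1 h2 h3 Y hY a t)
        (fun γ α0 => (E * sy (W D (w - κ j))) α0 γ) (by
          intro Y hYS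
          have h6 := hYS w hw
          rw [split] at h6
          refine Eq.trans ?_ h6
          rw [Finset.sum_comm]
          conv_rhs => rw [Finset.sum_comm]
          refine Finset.sum_congr rfl fun α0 _ => ?_
          rw [hY.1]
          simp only [Matrix.mul_apply, Finset.mul_sum, Finset.sum_mul]
          rw [Finset.sum_comm]
          refine Finset.sum_congr rfl fun β0 _ => ?_
          refine Finset.sum_congr rfl fun γ _ => ?_
          simp only [hE0, Matrix.of_apply]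
          simp only [Finset.mul_sum, Finset.sum_mul, mul_assoc])
      have h7 : E * sy (W D (w - κ j)) = 0 := by
        ext α0 γ
        exact congrFun (congrFun h5 γ) α0
      have h8 : IsUnit (W D (w - κ j)).det := (hA D (w - κ j) (by linarith)).2.1
      have h9 : E = 0 := by
        have h10 : sy (W D (w - κ j)) * sy ((W D (w - κ j))⁻¹) = 1 := by
          rw [← hY.1, Matrix.mul_nonsing_inv _ h8, hY.2.1]
        calc E = E * (sy (W D (w - κ j)) * sy ((W D (w - κ j))⁻¹)) := by rw [h10, Matrix.mul_one]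
          _ = 0 := by rw [← Matrix.mul_assoc, h7, Matrix.zero_mul]
      intro β0 α0
      have := congrFun (congrFun h9 α0) β0
      simpa [hE0] using this
    have hcard : Fintype.card {i // i ≠ j} = n := by
      have h20 := Fintype.card_subtype_compl (fun i => i = j)
      rw [Fintype.card_subtype_eq] at h20
      have h21 : Fintype.card {i // i ≠ j} = Fintype.card {i // ¬ i = j} :=
        Fintype.card_congr (Equiv.refl _)
      rw [h21, h20]
      omega
    have hfin : ∀ β0 α0 : SI D.r, (fun (β' : {i // i ≠ j} → SI D.r)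
        (α' : {i // i ≠ j} → SI D.r) => c ((Equiv.funSplitAt j (SI D.r)).symm (β0, β'))
            ((Equiv.funSplitAt j (SI D.r)).symm (α0, α'))) = 0 := by
      intro β0 α0
      refine ih {i // i ≠ j} hcard (fun i => κ i)
        (fun a b hab => Subtype.ext (hinj hab)) _ ?_
      filter_upwards [eventually_gt_atTop ((D.lam : ℝ) + κ j)] with w hw
      exact hcoef w hw β0 α0
    funext β α
    have h11 := congrFun (congrFun (hfin (β j) (α j)) (fun i => β i)) (fun i => α i)
    have h12 : ∀ γ : ι → SI D.r, (Equiv.funSplitAt j (SI D.r)).symm (γ j, fun i => γ i) = γ :=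
      fun γ => (Equiv.funSplitAt j (SI D.r)).symm_apply_apply γ
    simp only [h12] at h11
    exact h11

theorem pee (hY : SymStmt) (hL : LtlStmt) (hC : ConStmt) (hCy : CycStmt) (hA : AnaStmt)
    (hV : ValStmt) (hT : TraStmt) (hE : EvaStmt) : PeeStmt := by
  intro D ι _ _ κ hκ c h
  exact pee_aux hY hL hC hCy hA hV hT hE D _ ι rfl κ hκ c h

end Pool.Agent.MT100.H69
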