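import Pool.Agent.Helper69_MT.Pee
import Pool.Agent.MT100.StmtsP

/-! MT100, module P_PEP: there is no polynomial relation, multilinear in the symmetric squares, between
the translates of the fundamental matrix with a polynomial parameter, with coefficients polynomial in
`w` and `log w`. -/

set_option autoImplicit false

namespace Pool.Agent.MT100.H69P

open Matrix Polynomial Filter Topology Pool.Agent.MT100.H69

/-- PEP with a positive point where `φ ≤ λ` -/
def PepStmt' : Prop :=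
  ∀ (D : Dat) (φ : ℚ[X]), Adm D φ → (∃ x : ℝ, 0 < x ∧ pv φ x ≤ D.lam) →
    ∀ (ι : Type) [Fintype ι] [DecidableEq ι] (κ : ι → ℕ),
    Function.Injective κ → ∀ c : (ι → SI D.r) → (ι → SI D.r) → Polynomial (Polynomial ℝ),
      (∀ᶠ w : ℝ in Filter.atTop, ∑ β, ∑ α, evalEval w (Real.log w) (c β α) *
        ∏ i, sy (W D (pv φ (w - κ i))) (β i) (α i) = 0) → c = 0

/-! ### the relation -/

/-- the relation, with `log w` replaced by `log w - a`, the factor `j` multiplied by `Y` and the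
other ones by `exp (a N)` -/
noncomputable def TT (D : Dat) (φ : ℚ[X]) {ι : Type} [Fintype ι] [DecidableEq ι] (κ : ι → ℕ)
    (c : (ι → SI D.r) → (ι → SI D.r) → Polynomial (Polynomial ℝ)) (j : ι) (a : ℝ)
    (Y : Matrix (Fin D.r) (Fin D.r) ℝ) (w : ℝ) : ℝ :=
  ∑ β : ι → SI D.r, ∑ α : ι → SI D.r, evalEval w (Real.log w - a) (c β α) *
    ∏ i, sy (W D (pv φ (w - κ i)) * (if i = j then Y else en D.r (φ.natDegree * a))) (β i) (α i)

section

variable (D : Dat) (φ : ℚ[X]) {ι : Type} [Fintype ι] [DecidableEq ι] (κ : ι → ℕ)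
  (c : (ι → SI D.r) → (ι → SI D.r) → Polynomial (Polynomial ℝ)) (j : ι)

theorem pv_an (x : ℝ) : AnalyticAt ℝ (pv φ) x := by
  unfold pv
  have h := (Polynomial.differentiable (φ.map (algebraMap ℚ ℝ)))
  generalize (φ.map (algebraMap ℚ ℝ)) = p
  induction p using Polynomial.induction_on' with
  | add p q hp hq => simpa only [eval_add] using hp.fun_add hq
  | monomial n a =>
    simp only [eval_monomial]
    exact analyticAt_const.mul (analyticAt_id.pow n)

theorem W_an (hA : AnaStmt) {w1 : ℝ} (hw1 : ∀ w, w1 < w → (D.lam : ℝ) < pv φ w) (k : ℕ) (w : ℝ)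
    (hw : w1 + k < w) (a b : Fin D.r) :
    AnalyticAt ℝ (fun x => W D (pv φ (x - k)) a b) w := by
  have h1 := (hA D (pv φ (w - k)) (hw1 _ (by linarith))).1 a b
  have h2 : AnalyticAt ℝ (fun x : ℝ => x - (k : ℝ)) w := analyticAt_id.sub analyticAt_const
  have h3 : AnalyticAt ℝ (fun x : ℝ => pv φ (x - (k : ℝ))) w :=
    (pv_an φ (w - k)).comp_of_eq h2 rfl
  exact h1.comp_of_eq h3 rfl

theorem TT_an (hA : AnaStmt) {w1 : ℝ} (hw1 : ∀ w, w1 < w → (D.lam : ℝ) < pv φ w)
    (hpos : 0 < w1) (hκ : ∀ i, i ≠ j → κ i < κ j) (a : ℝ)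
    (Y : Matrix (Fin D.r) (Fin D.r) ℝ) (w : ℝ) (hw : w1 + κ j < w) :
    AnalyticAt ℝ (TT D φ κ c j a Y) w := by
  have hw0 : 0 < w := by
    have : (0 : ℝ) ≤ κ j := Nat.cast_nonneg _
    linarith
  have hki : ∀ i, w1 + κ i < w := by
    intro i
    by_cases h : i = j
    · rw [h]; exact hw
    · have : (κ i : ℝ) < κ j := by exact_mod_cast hκ i h
      linarith
  unfold TT
  refine Finset.analyticAt_fun_sum _ fun β _ => Finset.analyticAt_fun_sum _ fun α _ => ?_
  refine (an_evalEval analyticAt_id ((analyticAt_log hw0).sub analyticAt_const) _).mul ?_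
  refine Finset.analyticAt_fun_prod _ fun i _ => ?_
  refine an_sy (fun b d => an_mmul (A := fun x => W D (pv φ (x - κ i)))
    (B := fun _ => if i = j then Y else en D.r (φ.natDegree * a))
    (fun b d => W_an D φ hA hw1 (κ i) w (hki i) b d)
    (fun b d => analyticAt_const) b d) _ _

/-- the matrices near infinity -/
noncomputable def TrM (i : ι) (u : ℝ) : Matrix (Fin D.r) (Fin D.r) ℝ :=
  (TrP D φ (κ i)).map (fun f => ev f u)

theorem TrM_mer (hT : TrpStmt) (hE : EvaStmt) (hφ : 0 < φ.natDegree) (i : ι) (a b : Fin D.r) :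
    MerG fun u => TrM D φ κ i u a b := by
  obtain ⟨K, N, q, B, hS⟩ := hT D φ hφ (κ i)
  obtain ⟨δ, hδ, h1⟩ := hE.1 _ (hS.gH a b)
  have h2 := hE.2.2.2 (TrP D φ (κ i) a b) (δ / 2) (by positivity)
    (h1 (δ / 2) (by rw [abs_of_pos (by positivity)]; linarith)) 0
    (by rw [abs_zero]; positivity)
  exact MerG.of_an h2

/-- the relation as a function of `u = 1/w` and of the logarithm -/
noncomputable def FF (Y : Matrix (Fin D.r) (Fin D.r) ℝ) (u x : ℝ) : ℝ :=
  ∑ β : ι → SI D.r, ∑ α : ι → SI D.r, evalEval u⁻¹ (-1 * x) (c β α) *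
    ∏ i, sy (TrM D φ κ i u * en D.r (φ.natDegree * x - Real.log (φ.leadingCoeff : ℝ)) *
      (if i = j then Y else 1)) (β i) (α i)

theorem FF_PL (hT : TrpStmt) (hE : EvaStmt) (hφ : 0 < φ.natDegree)
    (Y : Matrix (Fin D.r) (Fin D.r) ℝ)
    {G : ℝ → ℝ → ℝ} (hG : PL G) : PL fun u x => FF D φ κ c j Y u (G u x) := by
  unfold FF
  refine PL.sum _ _ fun β _ => PL.sum _ _ fun α _ => PL.mul ?_ ?_
  · exact PL.evalEval MerG.inv ((PL.const (-1)).mul hG) _
  · refine PL.prod _ _ fun i _ => PL.sy (fun a b => ?_) _ _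
    have hG2 : PL fun u x => φ.natDegree * G u x - Real.log (φ.leadingCoeff : ℝ) := by
      simp only [sub_eq_add_neg]
      exact ((PL.const _).mul hG).add (PL.const _)
    refine PL.mmul (fun a b => PL.mmul (fun a b => ?_) (fun a b => PL.en hG2 a b) a b)
      (fun a b => ?_) a b
    · exact PL.of_mer (TrM_mer D φ κ hT hE hφ i a b)
    · exact PL.const _

theorem TT_FF (hV : VapStmt) (hφ : 0 < φ.natDegree) (hlc : 0 < φ.leadingCoeff)
    (Y : Matrix (Fin D.r) (Fin D.r) ℝ) (a : ℝ) :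
    ∀ᶠ u in 𝓝[>] (0 : ℝ), TT D φ κ c j a (en D.r (φ.natDegree * a) * Y) u⁻¹ =
      FF D φ κ c j Y u (Real.log u + a) := by
  have h1 : ∀ᶠ w : ℝ in atTop, ∀ i, W D (pv φ (w - κ i)) =
      (TrP D φ (κ i)).map (fun f => ev f w⁻¹) *
        en D.r (-((φ.natDegree : ℝ) * Real.log w + Real.log (φ.leadingCoeff : ℝ))) :=
    eventually_all.mpr fun i => hV D φ hφ hlc (κ i)
  filter_upwards [ev_zero h1] with u hu
  unfold TT FF
  refine Finset.sum_congr rfl fun β _ => Finset.sum_congr rfl fun α _ => ?_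
  have e1 : Real.log u⁻¹ - a = -1 * (Real.log u + a) := by rw [Real.log_inv]; ring
  rw [e1]
  congr 1
  refine Finset.prod_congr rfl fun i _ => ?_
  rw [hu i, inv_inv, Real.log_inv]
  have e2 : (TrP D φ (κ i)).map (fun f => ev f u) *
      en D.r (-((φ.natDegree : ℝ) * -Real.log u + Real.log (φ.leadingCoeff : ℝ))) *
      (if i = j then en D.r (φ.natDegree * a) * Y else en D.r (φ.natDegree * a)) =
      TrM D φ κ i u * en D.r (φ.natDegree * (Real.log u + a) - Real.log (φ.leadingCoeff : ℝ)) *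
        (if i = j then Y else 1) := by
    have e3 : φ.natDegree * (Real.log u + a) - Real.log (φ.leadingCoeff : ℝ) =
        (-((φ.natDegree : ℝ) * -Real.log u + Real.log (φ.leadingCoeff : ℝ))) +
          φ.natDegree * a := by ring
    rw [e3, en_add]
    unfold TrM
    split_ifs
    · simp only [Matrix.mul_assoc]
    · simp only [Matrix.mul_assoc, Matrix.mul_one]
  rw [e2]

theorem shift (hL : LtlStmt) (hV : VapStmt) (hT : TrpStmt) (hE : EvaStmt)
    (hφ : 0 < φ.natDegree) (hlc : 0 < φ.leadingCoeff)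
    (Y : Matrix (Fin D.r) (Fin D.r) ℝ) (a : ℝ)
    (h : ∀ᶠ w in atTop, TT D φ κ c j a (en D.r (φ.natDegree * a) * Y) w = 0) (b : ℝ) :
    ∀ᶠ w in atTop, TT D φ κ c j b (en D.r (φ.natDegree * b) * Y) w = 0 := by
  have h1 := PL.zero_of_log hL
    (FF_PL D φ κ c j hT hE hφ Y (G := fun _ x => x + a) (PL.var.add (PL.const a))) (by
      filter_upwards [TT_FF D φ κ c j hV hφ hlc Y a, ev_zero h] with u h2 h3
      rw [← h2, h3])
  refine ev_top (P := fun w => TT D φ κ c j b (en D.r (φ.natDegree * b) * Y) w = 0) ?_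
  filter_upwards [h1, TT_FF D φ κ c j hV hφ hlc Y b] with u h2 h3
  rw [h3]
  have := h2 (Real.log u + b - a)
  rwa [show Real.log u + b - a + a = Real.log u + b by ring] at this

/-- the relation near the conifold point -/
noncomputable def GG (w1 : ℝ) (A : ℝ → Matrix (Fin D.r) (Fin D.r) ℝ) (v l : Fin D.r → ℝ) (a : ℝ)
    (Y : Matrix (Fin D.r) (Fin D.r) ℝ) (u x : ℝ) : ℝ :=
  ∑ β : ι → SI D.r, ∑ α : ι → SI D.r,
    evalEval (w1 + κ j + u) (Real.log (w1 + κ j + u) - a) (c β α) *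
    ∏ i, sy (if i = j then (A u + x • vecMulVec (W D (pv φ (w1 + u)) *ᵥ v) l) * Y else
      W D (pv φ (w1 + κ j + u - κ i)) * en D.r (φ.natDegree * a)) (β i) (α i)

theorem GG_PL (hA : AnaStmt) {w1 : ℝ} (hw1 : ∀ w, w1 < w → (D.lam : ℝ) < pv φ w)
    (hpos : 0 < w1) (hκ : ∀ i, i ≠ j → κ i < κ j)
    (A : ℝ → Matrix (Fin D.r) (Fin D.r) ℝ) (v l : Fin D.r → ℝ)
    (h1 : ∀ a i, MerG fun u => A u a i) (h2 : ∀ a, MerG fun u => (W D (pv φ (w1 + u)) *ᵥ v) a)
    (a : ℝ) (Y : Matrix (Fin D.r) (Fin D.r) ℝ) {G : ℝ → ℝ → ℝ} (hG : PL G) :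
    PL fun u x => GG D φ κ c j w1 A v l a Y u (G u x) := by
  have hadd : AnalyticAt ℝ (fun u : ℝ => w1 + κ j + u) 0 :=
    analyticAt_const.add analyticAt_id
  have hpos : (0 : ℝ) < w1 + κ j + 0 := by
    have : (0 : ℝ) ≤ κ j := Nat.cast_nonneg _
    linarith
  unfold GG
  refine PL.sum _ _ fun β _ => PL.sum _ _ fun α _ => PL.mul ?_ ?_
  · refine PL.of_mer (MerG.of_an ?_)
    exact an_evalEval hadd ((hadd.log hpos).sub analyticAt_const) _
  · refine PL.prod _ _ fun i _ => PL.sy (fun b d => ?_) _ _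
    by_cases hij : i = j
    · simp only [if_pos hij]
      refine PL.mmul (B := fun _ _ => Y) (fun b d => ?_) (fun b d => PL.const _) b d
      simp only [Matrix.add_apply, Matrix.smul_apply, vecMulVec_apply, smul_eq_mul]
      exact (PL.of_mer (h1 b d)).add (hG.mul ((PL.of_mer (h2 b)).mul (PL.const _)))
    · simp only [if_neg hij]
      refine PL.mmul (A := fun u _ => W D (pv φ (w1 + κ j + u - κ i)))
        (B := fun _ _ => en D.r (φ.natDegree * a)) (fun b d => ?_) (fun b d => PL.const _) b d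
      refine PL.of_mer (MerG.of_an ?_)
      have h3 : (κ i : ℝ) < κ j := by exact_mod_cast hκ i hij
      exact (W_an D φ hA hw1 (κ i) (w1 + κ j + 0) (by linarith) b d).comp_of_eq hadd rfl

theorem TT_GG (w1 : ℝ) (A : ℝ → Matrix (Fin D.r) (Fin D.r) ℝ) (v l : Fin D.r → ℝ)
    (h3 : ∀ᶠ u in 𝓝[>] (0 : ℝ),
      W D (pv φ (w1 + u)) = A u + Real.log u • vecMulVec (W D (pv φ (w1 + u)) *ᵥ v) l)
    (a : ℝ) (Y : Matrix (Fin D.r) (Fin D.r) ℝ) (t : ℝ) :
    ∀ᶠ u in 𝓝[>] (0 : ℝ), TT D φ κ c j a ((1 + t • vecMulVec v l) * Y) (w1 + κ j + u) =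
      GG D φ κ c j w1 A v l a Y u (Real.log u + t) := by
  filter_upwards [h3] with u hu
  unfold TT GG
  refine Finset.sum_congr rfl fun β _ => Finset.sum_congr rfl fun α _ => ?_
  congr 1
  refine Finset.prod_congr rfl fun i _ => ?_
  by_cases hij : i = j
  · rw [if_pos hij, if_pos hij]
    have e : W D (pv φ (w1 + κ j + u - κ i)) * ((1 + t • vecMulVec v l) * Y) =
        (A u + (Real.log u + t) • vecMulVec (W D (pv φ (w1 + u)) *ᵥ v) l) * Y := by
      rw [hij, show w1 + κ j + u - κ j = w1 + u by ring, ← Matrix.mul_assoc,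
        Matrix.mul_add, Matrix.mul_one, Matrix.mul_smul, mul_vecMulVec, add_smul, ← add_assoc, ← hu]
    rw [e]
  · rw [if_neg hij, if_neg hij]

theorem coni (hL : LtlStmt) (hA : AnaStmt) {w1 : ℝ}
    (hw1 : ∀ w, w1 < w → (D.lam : ℝ) < pv φ w) (hpos : 0 < w1) (hκ : ∀ i, i ≠ j → κ i < κ j)
    (A : ℝ → Matrix (Fin D.r) (Fin D.r) ℝ) (v l : Fin D.r → ℝ)
    (h1 : ∀ a i, MerG fun u => A u a i) (h2 : ∀ a, MerG fun u => (W D (pv φ (w1 + u)) *ᵥ v) a)
    (h3 : ∀ᶠ u in 𝓝[>] (0 : ℝ),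
      W D (pv φ (w1 + u)) = A u + Real.log u • vecMulVec (W D (pv φ (w1 + u)) *ᵥ v) l)
    (a : ℝ) (Y : Matrix (Fin D.r) (Fin D.r) ℝ)
    (h : ∀ w, w1 + κ j < w → TT D φ κ c j a Y w = 0) (t : ℝ) :
    ∀ w, w1 + κ j < w → TT D φ κ c j a ((1 + t • vecMulVec v l) * Y) w = 0 := by
  refine ident_bot (fun w hw => TT_an D φ κ c j hA hw1 hpos hκ a _ w hw) ?_
  have h4 := PL.zero_of_log hL (GG_PL D φ κ c j hA hw1 hpos hκ A v l h1 h2 a Y PL.var) (by
    filter_upwards [TT_GG D φ κ c j w1 A v l h3 a Y 0, self_mem_nhdsWithin] with u h5 h6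
    have h6' : 0 < u := h6
    rw [add_zero] at h5
    rw [← h5, zero_smul, add_zero, Matrix.one_mul]
    exact h _ (by linarith))
  filter_upwards [h4, TT_GG D φ κ c j w1 A v l h3 a Y t] with u h5 h6
  rw [h6, h5]

/-- the set of the right multipliers preserving the relation is stable -/
theorem stable (hL : LtlStmt) (hA : AnaStmt) (hV : VapStmt) (hT : TrpStmt) (hE : EvaStmt)
    (hφ : 0 < φ.natDegree) (hlc : 0 < φ.leadingCoeff) {w1 : ℝ}
    (hw1 : ∀ w, w1 < w → (D.lam : ℝ) < pv φ w) (hpos : 0 < w1) (hκ : ∀ i, i ≠ j → κ i < κ j)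
    (A : ℝ → Matrix (Fin D.r) (Fin D.r) ℝ) (v l : Fin D.r → ℝ)
    (h1 : ∀ a i, MerG fun u => A u a i) (h2 : ∀ a, MerG fun u => (W D (pv φ (w1 + u)) *ᵥ v) a)
    (h3 : ∀ᶠ u in 𝓝[>] (0 : ℝ),
      W D (pv φ (w1 + u)) = A u + Real.log u • vecMulVec (W D (pv φ (w1 + u)) *ᵥ v) l)
    (Y : Matrix (Fin D.r) (Fin D.r) ℝ)
    (h : ∀ w, w1 + κ j < w → TT D φ κ c j 0 Y w = 0) (a t : ℝ) :
    ∀ w, w1 + κ j < w →
      TT D φ κ c j 0 ((1 + t • vecMulVec (en D.r (-a) *ᵥ v) (l ᵥ* en D.r a)) * Y) w = 0 := by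
  have e0 : ∀ Z : Matrix (Fin D.r) (Fin D.r) ℝ, en D.r ((φ.natDegree : ℝ) * 0) * Z = Z := fun Z => by
    rw [mul_zero, en_zero, Matrix.one_mul]
  obtain ⟨a', ha'⟩ : ∃ a' : ℝ, (φ.natDegree : ℝ) * a' = a :=
    ⟨a / φ.natDegree, mul_div_cancel₀ a (by exact_mod_cast hφ.ne')⟩
  have e1 : ∀ᶠ w in atTop, TT D φ κ c j 0 (en D.r ((φ.natDegree : ℝ) * 0) * Y) w = 0 := by
    rw [e0]
    filter_upwards [eventually_gt_atTop (w1 + κ j)] with w hw
    exact h w hw
  have e2 := ident_top (fun w hw => TT_an D φ κ c j hA hw1 hpos hκ a' _ w hw)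
    (shift D φ κ c j hL hV hT hE hφ hlc Y 0 e1 a')
  rw [ha'] at e2
  have e3 := coni D φ κ c j hL hA hw1 hpos hκ A v l h1 h2 h3 a' _ e2 t
  have e4 : ((1 + t • vecMulVec v l) * (en D.r a * Y)) =
      en D.r a * ((1 + t • vecMulVec (en D.r (-a) *ᵥ v) (l ᵥ* en D.r a)) * Y) := by
    have e5 : en D.r a * vecMulVec (en D.r (-a) *ᵥ v) (l ᵥ* en D.r a) =
        vecMulVec v l * en D.r a := by
      rw [mul_vecMulVec, mulVec_mulVec, ← en_add, add_neg_cancel, en_zero, one_mulVec,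
        vecMulVec_mul]
    rw [← Matrix.mul_assoc, ← Matrix.mul_assoc, Matrix.mul_add, Matrix.add_mul, Matrix.mul_one,
      Matrix.one_mul, Matrix.mul_smul, Matrix.smul_mul, e5]
  rw [e4] at e3
  have e6 : ∀ᶠ w in atTop, TT D φ κ c j a' (en D.r (φ.natDegree * a') *
      ((1 + t • vecMulVec (en D.r (-a) *ᵥ v) (l ᵥ* en D.r a)) * Y)) w = 0 := by
    rw [ha']
    filter_upwards [eventually_gt_atTop (w1 + κ j)] with w hw
    exact e3 w hw
  have e7 := ident_top (fun w hw => TT_an D φ κ c j hA hw1 hpos hκ 0 _ w hw)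
    (shift D φ κ c j hL hV hT hE hφ hlc _ a' e6 0)
  rwa [e0] at e7

end

/-- splitting off one factor -/
theorem split (D : Dat) (φ : ℚ[X]) {ι : Type} [Fintype ι] [DecidableEq ι] (κ : ι → ℕ)
    (c : (ι → SI D.r) → (ι → SI D.r) → Polynomial (Polynomial ℝ)) (j : ι)
    (Y : Matrix (Fin D.r) (Fin D.r) ℝ) (w : ℝ) :
    TT D φ κ c j 0 Y w = ∑ β0 : SI D.r, ∑ α0 : SI D.r,
      (∑ β' : {i // i ≠ j} → SI D.r, ∑ α' : {i // i ≠ j} → SI D.r,
        evalEval w (Real.log w) (c ((Equiv.funSplitAt j (SI D.r)).symm (β0, β'))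
          ((Equiv.funSplitAt j (SI D.r)).symm (α0, α'))) *
          ∏ i : {i // i ≠ j}, sy (W D (pv φ (w - κ i))) (β' i) (α' i)) *
        sy (W D (pv φ (w - κ j)) * Y) β0 α0 := by
  unfold TT
  rw [← (Equiv.funSplitAt j (SI D.r)).symm.sum_comp, Fintype.sum_prod_type]
  refine Finset.sum_congr rfl fun β0 _ => ?_
  have e1 : ∀ β' : {i // i ≠ j} → SI D.r, (∑ α : ι → SI D.r,
      evalEval w (Real.log w - 0) (c ((Equiv.funSplitAt j (SI D.r)).symm (β0, β')) α) *
        ∏ i, sy (W D (pv φ (w - κ i)) * (if i = j then Y else en D.r ((φ.natDegree : ℝ) * 0)))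
          ((Equiv.funSplitAt j (SI D.r)).symm (β0, β') i) (α i)) =
      ∑ α0 : SI D.r, ∑ α' : {i // i ≠ j} → SI D.r,
        evalEval w (Real.log w) (c ((Equiv.funSplitAt j (SI D.r)).symm (β0, β'))
          ((Equiv.funSplitAt j (SI D.r)).symm (α0, α'))) *
          (∏ i : {i // i ≠ j}, sy (W D (pv φ (w - κ i))) (β' i) (α' i)) *
        sy (W D (pv φ (w - κ j)) * Y) β0 α0 := by
    intro β'
    rw [← (Equiv.funSplitAt j (SI D.r)).symm.sum_comp, Fintype.sum_prod_type]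
    refine Finset.sum_congr rfl fun α0 _ => Finset.sum_congr rfl fun α' _ => ?_
    rw [sub_zero, Fintype.prod_eq_mul_prod_subtype_ne _ j, if_pos rfl]
    have e2 : ∀ (γ : SI D.r) (γ' : {i // i ≠ j} → SI D.r),
        (Equiv.funSplitAt j (SI D.r)).symm (γ, γ') j = γ := by
      intro γ γ'
      simp [Equiv.funSplitAt, Equiv.piSplitAt]
    have e3 : ∀ (γ : SI D.r) (γ' : {i // i ≠ j} → SI D.r) (i : {i // i ≠ j}),
        (Equiv.funSplitAt j (SI D.r)).symm (γ, γ') i = γ' i := by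
      intro γ γ' i
      simp [Equiv.funSplitAt, Equiv.piSplitAt, i.2]
    have e4 : (∏ i : {i // i ≠ j}, sy (W D (pv φ (w - κ i)) *
        (if (i : ι) = j then Y else en D.r ((φ.natDegree : ℝ) * 0)))
        ((Equiv.funSplitAt j (SI D.r)).symm (β0, β') i)
        ((Equiv.funSplitAt j (SI D.r)).symm (α0, α') i)) =
        ∏ i : {i // i ≠ j}, sy (W D (pv φ (w - κ i))) (β' i) (α' i) := by
      refine Finset.prod_congr rfl fun i _ => ?_
      rw [if_neg i.2, mul_zero, en_zero, Matrix.mul_one, e3, e3]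
    rw [e4, e2, e2]
    ring
  rw [Finset.sum_congr rfl fun β' _ => e1 β', Finset.sum_comm]
  refine Finset.sum_congr rfl fun α0 _ => ?_
  rw [Finset.sum_mul]
  refine Finset.sum_congr rfl fun β' _ => ?_
  rw [Finset.sum_mul]

theorem pee_aux (hY : SymStmt) (hL : LtlStmt) (hA : AnaStmt)
    (hV : VapStmt) (hT : TrpStmt) (hE : EvaStmt) (D : Dat) (φ : ℚ[X])
    (hφ : 0 < φ.natDegree) (hlc : 0 < φ.leadingCoeff) {w1 : ℝ}
    (hw1 : ∀ w, w1 < w → (D.lam : ℝ) < pv φ w) (hpos : 0 < w1)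
    (A : ℝ → Matrix (Fin D.r) (Fin D.r) ℝ) (v l : Fin D.r → ℝ)
    (h1 : ∀ a i, MerG fun u => A u a i) (h2 : ∀ a, MerG fun u => (W D (pv φ (w1 + u)) *ᵥ v) a)
    (h3 : ∀ᶠ u in 𝓝[>] (0 : ℝ),
      W D (pv φ (w1 + u)) = A u + Real.log u • vecMulVec (W D (pv φ (w1 + u)) *ᵥ v) l)
    (hv : v D.fl ≠ 0) (hl : l D.fz ≠ 0) :
    ∀ (n : ℕ) (ι : Type) [Fintype ι] [DecidableEq ι], Fintype.card ι = n → ∀ (κ : ι → ℕ),
    Function.Injective κ →
    ∀ c : (ι → SI D.r) → (ι → SI D.r) → Polynomial (Polynomial ℝ),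
      (∀ᶠ w : ℝ in atTop, ∑ β, ∑ α, evalEval w (Real.log w) (c β α) *
        ∏ i, sy (W D (pv φ (w - κ i))) (β i) (α i) = 0) → c = 0 := by
  intro n
  induction n with
  | zero =>
    intro ι _ _ hι κ hκ c h
    haveI : IsEmpty ι := Fintype.card_eq_zero_iff.mp hι
    funext β α
    refine coef_zero hL _ ?_
    filter_upwards [h] with w hw
    rw [Fintype.sum_unique, Fintype.sum_unique] at hw
    simp only [Finset.univ_eq_empty, Finset.prod_empty, mul_one] at hw
    rw [Subsingleton.elim β default, Subsingleton.elim α default]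
    exact hw
  | succ n ih =>
    intro ι _ _ hι κ hinj c h
    haveI : Nonempty ι := Fintype.card_pos_iff.mp (by omega)
    obtain ⟨j, hj⟩ := Finite.exists_max κ
    have hκ : ∀ i, i ≠ j → κ i < κ j := fun i hi =>
      lt_of_le_of_ne (hj i) fun h => hi (hinj h)
    have hT1 : ∀ w, TT D φ κ c j 0 1 w = ∑ β, ∑ α, evalEval w (Real.log w) (c β α) *
        ∏ i, sy (W D (pv φ (w - κ i))) (β i) (α i) := by
      intro w
      unfold TT
      simp only [mul_zero, en_zero, ite_self, Matrix.mul_one, sub_zero]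
    have hS1 : ∀ w, w1 + κ j < w → TT D φ κ c j 0 1 w = 0 := by
      refine ident_top (fun w hw => TT_an D φ κ c j hA hw1 hpos hκ 0 _ w hw) ?_
      filter_upwards [h] with w hw
      rw [hT1, hw]
    have hfl : ∀ i, i ≤ D.fl := by
      intro i
      have := i.2
      show (i : ℕ) ≤ D.r - 1
      omega
    have hfz : ∀ i, D.fz ≤ i := fun i => Nat.zero_le _
    -- the coefficients of the factor `j` vanish
    have hcoef : ∀ w, w1 + κ j < w → ∀ β0 α0 : SI D.r,
        ∑ β' : {i // i ≠ j} → SI D.r, ∑ α' : {i // i ≠ j} → SI D.r,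
          evalEval w (Real.log w) (c ((Equiv.funSplitAt j (SI D.r)).symm (β0, β'))
            ((Equiv.funSplitAt j (SI D.r)).symm (α0, α'))) *
            ∏ i : {i // i ≠ j}, sy (W D (pv φ (w - κ i))) (β' i) (α' i) = 0 := by
      intro w hw
      set E : Matrix (SI D.r) (SI D.r) ℝ := Matrix.of fun α0 β0 =>
        ∑ β' : {i // i ≠ j} → SI D.r, ∑ α' : {i // i ≠ j} → SI D.r,
          evalEval w (Real.log w) (c ((Equiv.funSplitAt j (SI D.r)).symm (β0, β'))
            ((Equiv.funSplitAt j (SI D.r)).symm (α0, α'))) *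
            ∏ i : {i // i ≠ j}, sy (W D (pv φ (w - κ i))) (β' i) (α' i) with hE0
      have h5 := la (fun a => en D.r (-a) *ᵥ v) (fun a => l ᵥ* en D.r a)
        (pcurve_v v D.fl hfl hv) (pcurve_l l D.fz hfz hl)
        (by
          simp only [neg_zero, en_zero, one_mulVec]
          exact fun h => hv (by rw [h]; rfl))
        (by
          simp only [en_zero, vecMul_one]
          exact fun h => hl (by rw [h]; rfl))
        {Y | ∀ w, w1 + κ j < w → TT D φ κ c j 0 Y w = 0} hS1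
        (fun Y hY a t => stable D φ κ c j hL hA hV hT hE hφ hlc hw1 hpos hκ A v l h1 h2 h3 Y hY a t)
        (fun γ α0 => (E * sy (W D (pv φ (w - κ j)))) α0 γ) (by
          intro Y hYS
          have h6 := hYS w hw
          rw [split] at h6
          refine Eq.trans ?_ h6
          rw [Finset.sum_comm]
          conv_rhs => rw [Finset.sum_comm]
          refine Finset.sum_congr rfl fun α0 _ => ?_
          rw [hY.1]
          simp only [Matrix.mul_apply, Finset.mul_sum, Finset.sum_mul]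
          rw [Finset.sum_comm]
          refine Finset.sum_congr rfl fun β0 _ => ?_
          refine Finset.sum_congr rfl fun γ _ => ?_
          simp only [hE0, Matrix.of_apply]
          simp only [Finset.mul_sum, Finset.sum_mul, mul_assoc])
      have h7 : E * sy (W D (pv φ (w - κ j))) = 0 := by
        ext α0 γ
        exact congrFun (congrFun h5 γ) α0
      have h8 : IsUnit (W D (pv φ (w - κ j))).det :=
        (hA D (pv φ (w - κ j)) (hw1 _ (by linarith))).2.1
      have h9 : E = 0 := by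
        have h10 : sy (W D (pv φ (w - κ j))) * sy ((W D (pv φ (w - κ j)))⁻¹) = 1 := by
          rw [← hY.1, Matrix.mul_nonsing_inv _ h8, hY.2.1]
        calc E = E * (sy (W D (pv φ (w - κ j))) * sy ((W D (pv φ (w - κ j)))⁻¹)) := by
              rw [h10, Matrix.mul_one]
          _ = 0 := by rw [← Matrix.mul_assoc, h7, Matrix.zero_mul]
      intro β0 α0
      have := congrFun (congrFun h9 α0) β0
      simpa [hE0] using this
    have hcard : Fintype.card {i // i ≠ j} = n := by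
      have h20 := Fintype.card_subtype_compl (fun i => i = j)
      rw [Fintype.card_subtype_eq] at h20
      have h21 : Fintype.card {i // i ≠ j} = Fintype.card {i // ¬ i = j} :=
        Fintype.card_congr (Equiv.refl _)
      rw [h21, h20]
      omega
    have hfin : ∀ β0 α0 : SI D.r, (fun (β' : {i // i ≠ j} → SI D.r)
        (α' : {i // i ≠ j} → SI D.r) => c ((Equiv.funSplitAt j (SI D.r)).symm (β0, β'))
            ((Equiv.funSplitAt j (SI D.r)).symm (α0, α'))) = 0 := by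
      intro β0 α0
      refine ih {i // i ≠ j} hcard (fun i => κ i)
        (fun a b hab => Subtype.ext (hinj hab)) _ ?_
      filter_upwards [eventually_gt_atTop (w1 + κ j)] with w hw
      exact hcoef w hw β0 α0
    funext β α
    have h11 := congrFun (congrFun (hfin (β j) (α j)) (fun i => β i)) (fun i => α i)
    have h12 : ∀ γ : ι → SI D.r, (Equiv.funSplitAt j (SI D.r)).symm (γ j, fun i => γ i) = γ :=
      fun γ => (Equiv.funSplitAt j (SI D.r)).symm_apply_apply γ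
    simp only [h12] at h11
    exact h11

theorem pep (hY : SymStmt) (hL : LtlStmt) (hA : AnaStmt) (hC : CopStmt)
    (hV : VapStmt) (hT : TrpStmt) (hE : EvaStmt) : PepStmt' := by
  intro D φ hφ hpos ι _ _ κ hκ c h
  obtain ⟨w1, -, hw1, v, l, A, h1, h2, h3, hv, hl, -⟩ := hC D φ hφ
  obtain ⟨x, hx, hx2⟩ := hpos
  have hw1pos : 0 < w1 := by
    by_contra hneg
    exact absurd (hw1 x (lt_of_le_of_lt (not_lt.mp hneg) hx)) (not_lt.mpr hx2)
  exact pee_aux hY hL hA hV hT hE D φ hφ.deg hφ.lead hw1 hw1pos A v l h1 h2 h3 hv hl _ ι rfl κ hκ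
    c h

end Pool.Agent.MT100.H69P
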